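import Pool.Agent.Lib.H84J.Defs

set_option autoImplicit false
set_option linter.unusedSectionVars false

open scoped Classical

namespace Pool.Agent.Lib.H84J

variable {Γ : Type*} [Group Γ] {X : Type*} [MulAction Γ X]

private theorem A1_dec {P : Prop} [Decidable P] {b : Bool} (h : P ↔ b = true) :
    decide P = b := by
  cases b with
  | false => exact decide_eq_false fun hp => Bool.false_ne_true (h.1 hp)
  | true => exact decide_eq_true (h.2 rfl)

/-- Chunk A1 (M): **alternating colourings of lines with cuts**. On every line which meets `C` the edges `{x, g x}`, `x ∉ C`,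
are coloured alternately between the cuts, and an edge just before a cut `y = g x ∈ C` has the prescribed colour `d y`.

**Proof.** `r x` = least `n : ℕ` with `g ^ (n + 1) • x ∈ C`, if there is one; `l x` = least `n : ℕ` with
`(g⁻¹) ^ (n + 1) • x ∈ C`, if there is one. Put `q x = xor (d (g ^ (r x + 1) • x)) (r x odd)` if `r x` exists; otherwise
`q x = (l x odd)` if `l x` exists; otherwise `false`. If `x, g x ∉ C`: `r x` exists iff `r (g x)` exists and then
`r x = r (g x) + 1` with the same point of `C`. If `r x` does not exist and `x ∈ line g C`, `x ∉ C`, then some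
`g ^ n • x ∈ C` with `n < 0`, so `l x` exists and `l (g x) = l x + 1`. If `g x ∈ C` then `r x = 0`. Measurability: `r`, `l` take
countably many values (`measurable_find` or `Nat.find`, see `H84E.B` for the style), `q` is a countable union of pieces; one
can write `{x | q x = true}` as a countable union/intersection of preimages. -/
theorem a1_alt [MeasurableSpace X] (hm : ∀ γ : Γ, Measurable (fun x : X => γ • x)) (g : Γ) {C : Set X}
    (hC : MeasurableSet C) {d : X → Bool} (hd : Measurable d) :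
    ∃ q : X → Bool, Measurable q ∧ (∀ x ∈ line g C, x ∉ C → g • x ∉ C → q (g • x) = !q x) ∧
      ∀ x, x ∉ C → g • x ∈ C → q x = d (g • x) := by
  -- first return times
  let R : ℕ → Set X := fun n => ((fun x : X => g ^ (n + 1) • x) ⁻¹' C) ∩
    ⋂ (m : ℕ) (_ : m < n), ((fun x : X => g ^ (m + 1) • x) ⁻¹' C)ᶜ
  let L : ℕ → Set X := fun n => ((fun x : X => g⁻¹ ^ (n + 1) • x) ⁻¹' C) ∩
    ⋂ (m : ℕ) (_ : m < n), ((fun x : X => g⁻¹ ^ (m + 1) • x) ⁻¹' C)ᶜ
  have hR : ∀ n x, x ∈ R n ↔ g ^ (n + 1) • x ∈ C ∧ ∀ m < n, g ^ (m + 1) • x ∉ C := by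
    intro n x
    simp only [R, Set.mem_inter_iff, Set.mem_preimage, Set.mem_iInter, Set.mem_compl_iff]
  have hL : ∀ n x, x ∈ L n ↔ g⁻¹ ^ (n + 1) • x ∈ C ∧ ∀ m < n, g⁻¹ ^ (m + 1) • x ∉ C := by
    intro n x
    simp only [L, Set.mem_inter_iff, Set.mem_preimage, Set.mem_iInter, Set.mem_compl_iff]
  have hRm : ∀ n, MeasurableSet (R n) := fun n => ((hm _) hC).inter
    (MeasurableSet.iInter fun m => MeasurableSet.iInter fun _ => ((hm _) hC).compl)
  have hLm : ∀ n, MeasurableSet (L n) := fun n => ((hm _) hC).inter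
    (MeasurableSet.iInter fun m => MeasurableSet.iInter fun _ => ((hm _) hC).compl)
  have hRu : ∀ n n' x, x ∈ R n → x ∈ R n' → n = n' := by
    intro n n' x h h'
    rw [hR] at h h'
    rcases lt_trichotomy n n' with h1 | h1 | h1
    · exact absurd h.1 (h'.2 n h1)
    · exact h1
    · exact absurd h'.1 (h.2 n' h1)
  have hLu : ∀ n n' x, x ∈ L n → x ∈ L n' → n = n' := by
    intro n n' x h h'
    rw [hL] at h h'
    rcases lt_trichotomy n n' with h1 | h1 | h1
    · exact absurd h.1 (h'.2 n h1)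
    · exact h1
    · exact absurd h'.1 (h.2 n' h1)
  let Q : Set X := (⋃ n : ℕ, R n ∩ {x | xor (d (g ^ (n + 1) • x)) n.bodd = true}) ∪
    ((⋃ n : ℕ, R n)ᶜ ∩ ⋃ (n : ℕ) (_ : n.bodd = true), L n)
  have hQm : MeasurableSet Q := by
    refine (MeasurableSet.iUnion fun n => (hRm n).inter ?_).union
      ((MeasurableSet.iUnion fun n => hRm n).compl.inter
        (MeasurableSet.iUnion fun n => MeasurableSet.iUnion fun _ => hLm n))
    have h1 : Measurable (fun x : X => xor (d (g ^ (n + 1) • x)) n.bodd) :=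
      (Measurable.of_discrete (f := fun b : Bool => xor b n.bodd)).comp (hd.comp (hm _))
    exact h1 (MeasurableSet.singleton true)
  have hq1 : ∀ n x, x ∈ R n → (x ∈ Q ↔ xor (d (g ^ (n + 1) • x)) n.bodd = true) := by
    intro n x hx
    constructor
    · rintro (h | h)
      · obtain ⟨n', h1, h2⟩ := Set.mem_iUnion.1 h
        rw [hRu n n' x hx h1]
        exact h2
      · exact absurd (Set.mem_iUnion.2 ⟨n, hx⟩) h.1
    · intro h
      exact Or.inl (Set.mem_iUnion.2 ⟨n, hx, h⟩)
  have hq2 : ∀ n x, x ∉ ⋃ n, R n → x ∈ L n → (x ∈ Q ↔ n.bodd = true) := by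
    intro n x hx hx'
    constructor
    · rintro (h | h)
      · obtain ⟨n', h1, h2⟩ := Set.mem_iUnion.1 h
        exact absurd (Set.mem_iUnion.2 ⟨n', h1⟩) hx
      · obtain ⟨n', h1⟩ := Set.mem_iUnion.1 h.2
        obtain ⟨h2, h3⟩ := Set.mem_iUnion.1 h1
        rw [hLu n n' x hx' h3]
        exact h2
    · intro h
      exact Or.inr ⟨hx, Set.mem_iUnion.2 ⟨n, Set.mem_iUnion.2 ⟨h, hx'⟩⟩⟩
  have hfirst : ∀ x, (∃ n : ℕ, g ^ (n + 1) • x ∈ C) → ∃ n, x ∈ R n := by
    intro x h
    refine ⟨Nat.find h, (hR _ _).2 ⟨Nat.find_spec h, fun m hm' => Nat.find_min h hm'⟩⟩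
  have hfirst' : ∀ x, (∃ n : ℕ, g⁻¹ ^ (n + 1) • x ∈ C) → ∃ n, x ∈ L n := by
    intro x h
    refine ⟨Nat.find h, (hL _ _).2 ⟨Nat.find_spec h, fun m hm' => Nat.find_min h hm'⟩⟩
  refine ⟨fun x => decide (x ∈ Q), ?_, ?_, ?_⟩
  · apply measurable_to_bool
    have h1 : (fun x => decide (x ∈ Q)) ⁻¹' {true} = Q := by
      ext x
      simp
    rw [h1]
    exact hQm
  · intro x hx hxC hgC
    show decide (g • x ∈ Q) = !decide (x ∈ Q)
    by_cases h : ∃ n : ℕ, g ^ (n + 1) • x ∈ C
    · obtain ⟨n, hn⟩ := hfirst x h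
      have hn0 : n ≠ 0 := by
        rintro rfl
        have := ((hR _ _).1 hn).1
        rw [zero_add, pow_one] at this
        exact hgC this
      obtain ⟨m, rfl⟩ := Nat.exists_eq_succ_of_ne_zero hn0
      have hm1 : g • x ∈ R m := by
        rw [hR] at hn ⊢
        refine ⟨?_, fun k hk => ?_⟩
        · rw [smul_smul, ← pow_succ]
          exact hn.1
        · rw [smul_smul, ← pow_succ]
          exact hn.2 (k + 1) (Nat.succ_lt_succ hk)
      have e1 := hq1 _ _ hn
      have e2 := hq1 _ _ hm1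
      have e3 : g ^ (m + 1) • g • x = g ^ (m.succ + 1) • x := by
        rw [smul_smul, ← pow_succ]
      rw [e3] at e2
      rw [Nat.bodd_succ] at e1
      rw [A1_dec e1, A1_dec e2]
      generalize d (g ^ (m.succ + 1) • x) = b1
      generalize m.bodd = b2
      cases b1 <;> cases b2 <;> rfl
    · have hxR : x ∉ ⋃ n, R n := by
        intro h1
        obtain ⟨n, h2⟩ := Set.mem_iUnion.1 h1
        exact h ⟨n, ((hR _ _).1 h2).1⟩
      have hgR : g • x ∉ ⋃ n, R n := by
        intro h1
        obtain ⟨n, h2⟩ := Set.mem_iUnion.1 h1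
        refine h ⟨n + 1, ?_⟩
        have h3 := ((hR _ _).1 h2).1
        rwa [smul_smul, ← pow_succ] at h3
      have hl : ∃ n : ℕ, g⁻¹ ^ (n + 1) • x ∈ C := by
        obtain ⟨n, hn⟩ := hx
        rcases n with n | n
        · exfalso
          rcases n with _ | n
          · apply hxC
            simpa using hn
          · refine h ⟨n, ?_⟩
            rw [Int.ofNat_eq_natCast, zpow_natCast] at hn
            exact hn
        · refine ⟨n, ?_⟩
          rw [inv_pow]
          simpa [zpow_negSucc] using hn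
      obtain ⟨k, hk⟩ := hfirst' x hl
      have hk1 : g • x ∈ L (k + 1) := by
        rw [hL] at hk ⊢
        have e : ∀ m : ℕ, g⁻¹ ^ (m + 1) • g • x = g⁻¹ ^ m • x := by
          intro m
          rw [pow_succ, mul_smul, inv_smul_smul]
        refine ⟨?_, fun m hm' => ?_⟩
        · rw [e]
          exact hk.1
        · rw [e]
          rcases m with _ | m
          · rw [pow_zero, one_smul]
            exact hxC
          · exact hk.2 m (by omega)
      have e1 := hq2 _ _ hxR hk
      have e2 := hq2 _ _ hgR hk1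
      rw [Nat.bodd_succ] at e2
      rw [A1_dec e1, A1_dec e2]
  · intro x hxC hgC
    have h0 : x ∈ R 0 := by
      rw [hR, zero_add, pow_one]
      exact ⟨hgC, fun m hm' => absurd hm' (Nat.not_lt_zero m)⟩
    have e1 := hq1 _ _ h0
    rw [zero_add, pow_one, Nat.bodd_zero, Bool.xor_false] at e1
    show decide (x ∈ Q) = d (g • x)
    exact A1_dec e1

end Pool.Agent.Lib.H84J
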