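import Pool.Agent.Lib.H84J.Defs
import Pool.Agent.Lib.H84E.B

set_option autoImplicit false
set_option linter.unusedSectionVars false

open scoped Classical

namespace Pool.Agent.Lib.H84J

variable {Γ : Type*} [Group Γ] {X : Type*} [MulAction Γ X]

/-- Chunk A2 (M): **Borel maximal independent sets**.

**Proof.** `f : X → ℕ` from `H84E.b_col` with `f (γ • x) ≠ f x` for `γ ∈ F`. Define measurable sets `M n` by strong recursion (or the
increasing unions `U n`, `U 0 = ∅`, `U (n + 1) = U n ∪ {x | x ∈ A ∧ f x = n ∧ ∀ γ ∈ F, γ • x ∉ U n}`), `M = ⋃ n, U n`. Every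
`x ∈ U n` has `f x < n`. Independence: `x, γ • x ∈ M`, say `f x = n`, `f (γ • x) = k ≠ n`. If `k < n`: `x` was added at step `n`,
so `γ • x ∉ U n`, but `γ • x ∈ U (k + 1) ⊆ U n`. If `n < k`: the same for `γ • x` and `γ⁻¹ ∈ F`. Maximality: `x ∈ A`, `x ∉ M`, `f x = n`: not
added at step `n`, so some `γ • x ∈ U n ⊆ M`. -/
theorem a2_mis [MeasurableSpace X] [StandardBorelSpace X] (hm : ∀ γ : Γ, Measurable (fun x : X => γ • x)) (F : Finset Γ)
    (hF1 : ∀ γ ∈ F, ∀ x : X, γ • x ≠ x) (hFi : ∀ γ ∈ F, γ⁻¹ ∈ F) {A : Set X} (hA : MeasurableSet A) :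
    ∃ M : Set X, M ⊆ A ∧ MeasurableSet M ∧ (∀ x ∈ M, ∀ γ ∈ F, γ • x ∉ M) ∧
      ∀ x ∈ A, x ∉ M → ∃ γ ∈ F, γ • x ∈ M := by
  obtain ⟨f, hf, hfF⟩ := H84E.b_col hm F hF1
  let U : ℕ → Set X := fun n => Nat.rec ∅
    (fun n Un => Un ∪ {x | x ∈ A ∧ f x = n ∧ ∀ γ ∈ F, γ • x ∉ Un}) n
  have hU0 : U 0 = ∅ := rfl
  have hUs : ∀ n, U (n + 1) = U n ∪ {x | x ∈ A ∧ f x = n ∧ ∀ γ ∈ F, γ • x ∉ U n} := fun n => rfl
  have hUm : ∀ n, MeasurableSet (U n) := by
    intro n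
    induction n with
    | zero => rw [hU0]; exact MeasurableSet.empty
    | succ n ih =>
      rw [hUs]
      refine ih.union ?_
      have h1 : {x | x ∈ A ∧ f x = n ∧ ∀ γ ∈ F, γ • x ∉ U n} =
          A ∩ (f ⁻¹' {n} ∩ ⋂ γ ∈ F, ((fun x : X => γ • x) ⁻¹' U n)ᶜ) := by
        ext x
        simp only [Set.mem_ofPred_eq, Set.mem_inter_iff, Set.mem_preimage, Set.mem_singleton_iff,
          Set.mem_iInter, Set.mem_compl_iff]
      rw [h1]
      exact hA.inter ((hf (MeasurableSet.singleton n)).inter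
        (Finset.measurableSet_biInter F fun γ _ => ((hm γ) ih).compl))
  have hmono : Monotone U := monotone_nat_of_le_succ fun n => by
    rw [hUs]
    exact Set.subset_union_left
  have hprop : ∀ n x, x ∈ U n → x ∈ A ∧ f x < n ∧ (∀ γ ∈ F, γ • x ∉ U (f x)) ∧
      x ∈ U (f x + 1) := by
    intro n
    induction n with
    | zero =>
      intro x hx
      rw [hU0] at hx
      exact absurd hx (Set.notMem_empty x)
    | succ n ih =>
      intro x hx
      rw [hUs] at hx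
      rcases hx with hx | hx
      · obtain ⟨h1, h2, h3⟩ := ih x hx
        exact ⟨h1, by omega, h3⟩
      · obtain ⟨h1, h2, h3⟩ := hx
        refine ⟨h1, by omega, ?_, ?_⟩
        · rw [h2]; exact h3
        · rw [h2, hUs]
          exact Or.inr ⟨h1, h2, h3⟩
  refine ⟨⋃ n, U n, ?_, MeasurableSet.iUnion hUm, ?_, ?_⟩
  · intro x hx
    obtain ⟨n, hn⟩ := Set.mem_iUnion.1 hx
    exact (hprop n x hn).1
  · intro x hx γ hγ hy
    obtain ⟨n, hn⟩ := Set.mem_iUnion.1 hx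
    obtain ⟨k, hk⟩ := Set.mem_iUnion.1 hy
    obtain ⟨-, -, h1, h2⟩ := hprop n x hn
    obtain ⟨-, -, h3, h4⟩ := hprop k _ hk
    rcases lt_trichotomy (f (γ • x)) (f x) with h | h | h
    · exact h1 γ hγ (hmono (Nat.succ_le_of_lt h) h4)
    · exact hfF γ hγ x h
    · apply h3 γ⁻¹ (hFi γ hγ)
      rw [inv_smul_smul]
      exact hmono (Nat.succ_le_of_lt h) h2
  · intro x hxA hxM
    by_contra hno
    push Not at hno
    apply hxM
    refine Set.mem_iUnion.2 ⟨f x + 1, ?_⟩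
    rw [hUs]
    exact Or.inr ⟨hxA, rfl, fun γ hγ h => hno γ hγ (Set.mem_iUnion.2 ⟨_, h⟩)⟩

end Pool.Agent.Lib.H84J
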