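import Pool.Agent.Lib.H84J.Defs

set_option autoImplicit false
set_option linter.unusedSectionVars false

open scoped Classical

namespace Pool.Agent.Lib.H84J

variable {Γ : Type*} [Group Γ] {X : Type*} [MulAction Γ X]

/-- Chunk A3 (S): `ends` and `line` of a measurable set are measurable.

**Proof.** `ends g C = C ∪ (g⁻¹ • ·) ⁻¹' C`; `line g C = ⋃ n : ℤ, (g ^ n • ·) ⁻¹' C`. -/
theorem a3_ends [MeasurableSpace X] (hm : ∀ γ : Γ, Measurable (fun x : X => γ • x)) (g : Γ) {C : Set X}
    (hC : MeasurableSet C) : MeasurableSet (ends g C) := by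
  have h : ends g C = C ∪ (fun x : X => g⁻¹ • x) ⁻¹' C := rfl
  rw [h]
  exact hC.union (hm g⁻¹ hC)

theorem a3_line [MeasurableSpace X] (hm : ∀ γ : Γ, Measurable (fun x : X => γ • x)) (g : Γ) {C : Set X}
    (hC : MeasurableSet C) : MeasurableSet (line g C) := by
  have h : line g C = ⋃ n : ℤ, (fun x : X => g ^ n • x) ⁻¹' C := by
    ext x
    simp only [line, Set.mem_setOf_eq, Set.mem_iUnion, Set.mem_preimage]
  rw [h]
  exact MeasurableSet.iUnion fun n => hm (g ^ n) hC

end Pool.Agent.Lib.H84J
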