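import Pool.Agent.Lib.H84J.Defs
import Pool.Agent.Lib.H84J.A2

set_option autoImplicit false
set_option linter.unusedSectionVars false

open scoped Classical

namespace Pool.Agent.Lib.H84J

variable {Γ : Type*} [Group Γ] {X : Type*} [MulAction Γ X]

/-- Chunk B1 (M): **the `s`-edges of the first kind**.

**Proof.** `a2_mis` with `A = univ` and `F` = the set of the elements
`s, s⁻¹, t, t⁻¹, t s, t⁻¹ s, s⁻¹ t, s⁻¹ t⁻¹, s⁻¹ t s, s⁻¹ t⁻¹ s`; none of them is `1` (`s ≠ 1` and `t ≠ 1` as the orders are `0`; `t ≠ s`,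
`t ≠ s⁻¹`), so they have no fixed points (`hfree`); `F` is closed under inverses. Property 1: `s ∈ F`. Property 2, for `x ∈ ends s D`,
`t x ∈ ends s D`: four cases, `x ∈ D, t x ∈ D` (`t ∈ F`); `x ∈ D, s⁻¹ t x ∈ D` (`s⁻¹ t ∈ F`); `y = s⁻¹ x ∈ D, t x = t s y ∈ D`;
`y ∈ D`, `s⁻¹ t s y ∈ D`. Property 3: `x ∉ line s D`, so `x ∉ D` and some `γ • x ∈ D`, `γ ∈ F`; `γ = s, s⁻¹` are impossible (then
`x ∈ line s D`), `γ = t`: `t x ∈ D`; `γ = s⁻¹ t`: `t x ∈ ends s D`; `γ = t s`: `t s x ∈ D`; `γ = s⁻¹ t s`: `t s x ∈ ends s D`; the same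
with `t⁻¹`. -/
theorem b1_D [MeasurableSpace X] [StandardBorelSpace X] (hm : ∀ γ : Γ, Measurable (fun x : X => γ • x))
    (hfree : ∀ (γ : Γ) (x : X), γ • x = x → γ = 1) {s t : Γ} (hs : orderOf s = 0) (ht : orderOf t = 0)
    (hts : t ≠ s) (hts' : t ≠ s⁻¹) :
    ∃ D : Set X, MeasurableSet D ∧ (∀ x ∈ D, s • x ∉ D) ∧ (∀ x ∈ ends s D, t • x ∉ ends s D) ∧
      ∀ x, x ∉ line s D → t • x ∈ ends s D ∨ t⁻¹ • x ∈ ends s D ∨
        t • s • x ∈ ends s D ∨ t⁻¹ • s • x ∈ ends s D := by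
  obtain ⟨F, hF⟩ : ∃ F : Finset Γ, ∀ γ, γ ∈ F ↔ γ = s ∨ γ = s⁻¹ ∨ γ = t ∨ γ = t⁻¹ ∨ γ = t * s ∨
      γ = t⁻¹ * s ∨ γ = s⁻¹ * t ∨ γ = s⁻¹ * t⁻¹ ∨ γ = s⁻¹ * t * s ∨ γ = s⁻¹ * t⁻¹ * s := by
    refine ⟨{s, s⁻¹, t, t⁻¹, t * s, t⁻¹ * s, s⁻¹ * t, s⁻¹ * t⁻¹, s⁻¹ * t * s, s⁻¹ * t⁻¹ * s},
      fun γ => ?_⟩
    simp only [Finset.mem_insert, Finset.mem_singleton]
  have hs1 : s ≠ 1 := by
    rintro rfl
    rw [orderOf_one] at hs
    exact one_ne_zero hs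
  have ht1 : t ≠ 1 := by
    rintro rfl
    rw [orderOf_one] at ht
    exact one_ne_zero ht
  have hF1 : ∀ γ ∈ F, ∀ x : X, γ • x ≠ x := by
    intro γ hγ x hx
    have h1 : γ = 1 := hfree γ x hx
    rcases (hF γ).1 hγ with h | h | h | h | h | h | h | h | h | h
    · exact hs1 (h.symm.trans h1)
    · exact hs1 (inv_eq_one.1 (h.symm.trans h1))
    · exact ht1 (h.symm.trans h1)
    · exact ht1 (inv_eq_one.1 (h.symm.trans h1))
    · exact hts' (eq_inv_of_mul_eq_one_left (h.symm.trans h1))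
    · exact hts (inv_mul_eq_one.1 (h.symm.trans h1))
    · exact hts (inv_mul_eq_one.1 (h.symm.trans h1)).symm
    · have h2 : s⁻¹ * t⁻¹ = 1 := h.symm.trans h1
      have h3 : s = t⁻¹ := inv_mul_eq_one.1 h2
      exact hts' (by rw [h3, inv_inv])
    · have h2 : s⁻¹ * t * s = 1 := h.symm.trans h1
      have h3 : s⁻¹ * t = s⁻¹ := eq_inv_of_mul_eq_one_left h2
      exact ht1 (mul_eq_left.1 h3)
    · have h2 : s⁻¹ * t⁻¹ * s = 1 := h.symm.trans h1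
      have h3 : s⁻¹ * t⁻¹ = s⁻¹ := eq_inv_of_mul_eq_one_left h2
      exact ht1 (inv_eq_one.1 (mul_eq_left.1 h3))
  have hFi : ∀ γ ∈ F, γ⁻¹ ∈ F := by
    intro γ hγ
    rw [hF]
    rcases (hF γ).1 hγ with h | h | h | h | h | h | h | h | h | h <;> subst h <;>
      simp [mul_assoc]
  obtain ⟨D, -, hD, hind, hmax⟩ := a2_mis hm F hF1 hFi (A := Set.univ) MeasurableSet.univ
  refine ⟨D, hD, ?_, ?_, ?_⟩
  · intro x hx
    exact hind x hx s ((hF s).2 (by tauto))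
  · rintro x (hx | hx) (hy | hy)
    · exact hind x hx t ((hF t).2 (by tauto)) hy
    · exact hind x hx (s⁻¹ * t) ((hF _).2 (by tauto)) (by rwa [mul_smul])
    · refine hind _ hx (t * s) ((hF _).2 (by tauto)) ?_
      rwa [mul_smul, smul_inv_smul]
    · refine hind _ hx (s⁻¹ * t * s) ((hF _).2 (by tauto)) ?_
      rwa [mul_smul, smul_inv_smul, mul_smul]
  · intro x hx
    have hxD : x ∉ D := fun h => hx (mem_line h)
    obtain ⟨γ, hγ, h1⟩ := hmax x (Set.mem_univ x) hxD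
    rcases (hF γ).1 hγ with h | h | h | h | h | h | h | h | h | h
    · rw [h] at h1
      exact absurd (line_smul.1 (mem_line h1)) hx
    · rw [h] at h1
      exact absurd (mem_line_inv h1) hx
    · rw [h] at h1
      exact Or.inl (Or.inl h1)
    · rw [h] at h1
      exact Or.inr (Or.inl (Or.inl h1))
    · rw [h, mul_smul] at h1
      exact Or.inr (Or.inr (Or.inl (Or.inl h1)))
    · rw [h, mul_smul] at h1
      exact Or.inr (Or.inr (Or.inr (Or.inl h1)))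
    · rw [h, mul_smul] at h1
      exact Or.inl (Or.inr h1)
    · rw [h, mul_smul] at h1
      exact Or.inr (Or.inl (Or.inr h1))
    · rw [h, mul_smul, mul_smul] at h1
      exact Or.inr (Or.inr (Or.inl (Or.inr h1)))
    · rw [h, mul_smul, mul_smul] at h1
      exact Or.inr (Or.inr (Or.inr (Or.inr h1)))

end Pool.Agent.Lib.H84J
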