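import Pool.Agent.Lib.H84J.Defs
import Pool.Agent.Lib.H84J.A2

set_option autoImplicit false
set_option linter.unusedSectionVars false

open scoped Classical

namespace Pool.Agent.Lib.H84J

variable {Γ : Type*} [Group Γ] {X : Type*} [MulAction Γ X]

/-- Chunk B2 (M): **the reserved `t`-edges**. `E` is the set of the ends of the `s`-edges of the first kind.

**Proof.** `a2_mis` with `A = {x | x ∉ E ∧ t • x ∉ E}` (measurable) and `F = {t, t⁻¹, t², t⁻², t³, t⁻³}` (no fixed points: `t` has infinite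
order, the action is free). The last claim: such an `x` is in `A`; if `x ∈ K` take `n = 0`, otherwise some `γ • x ∈ K`, `γ ∈ F` a power
of `t`. -/
theorem b2_K [MeasurableSpace X] [StandardBorelSpace X] (hm : ∀ γ : Γ, Measurable (fun x : X => γ • x))
    (hfree : ∀ (γ : Γ) (x : X), γ • x = x → γ = 1) {t : Γ} (ht : orderOf t = 0) {E : Set X} (hE : MeasurableSet E) :
    ∃ K : Set X, MeasurableSet K ∧ (∀ x ∈ K, x ∉ E ∧ t • x ∉ E) ∧
      (∀ x ∈ K, t • x ∉ K ∧ t • t • x ∉ K ∧ t • t • t • x ∉ K) ∧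
      ∀ x, x ∉ E → t • x ∉ E → x ∈ line t K := by
  obtain ⟨S, hS⟩ : ∃ S : Finset ℤ, S = {1, -1, 2, -2, 3, -3} := ⟨_, rfl⟩
  have hSn : ∀ n ∈ S, n ≠ 0 ∧ -n ∈ S := by
    rw [hS]
    decide
  have hA : MeasurableSet {x : X | x ∉ E ∧ t • x ∉ E} :=
    hE.compl.inter ((hm t) hE.compl)
  obtain ⟨K, hKA, hK, hind, hmax⟩ := a2_mis (X := X) hm (S.image fun n => t ^ n)
    (by
      intro γ hγ x hx
      obtain ⟨n, hn, rfl⟩ := Finset.mem_image.1 hγ
      have h1 := hfree _ _ hx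
      rw [← orderOf_dvd_iff_zpow_eq_one, ht] at h1
      exact (hSn n hn).1 (by simpa using h1))
    (by
      intro γ hγ
      obtain ⟨n, hn, rfl⟩ := Finset.mem_image.1 hγ
      exact Finset.mem_image.2 ⟨-n, (hSn n hn).2, zpow_neg t n⟩) hA
  refine ⟨K, hK, fun x hx => hKA hx, fun x hx => ⟨?_, ?_, ?_⟩, ?_⟩
  · have h1 := hind x hx (t ^ (1 : ℤ)) (Finset.mem_image.2 ⟨1, by rw [hS]; decide, rfl⟩)
    rwa [zpow_one] at h1
  · have h1 := hind x hx (t ^ (2 : ℤ)) (Finset.mem_image.2 ⟨2, by rw [hS]; decide, rfl⟩)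
    rw [smul_smul]
    have h2 : t ^ (2 : ℤ) = t * t := by
      rw [show (2 : ℤ) = ((2 : ℕ) : ℤ) by rfl, zpow_natCast, pow_two]
    rwa [h2] at h1
  · have h1 := hind x hx (t ^ (3 : ℤ)) (Finset.mem_image.2 ⟨3, by rw [hS]; decide, rfl⟩)
    rw [smul_smul, smul_smul]
    have h2 : t ^ (3 : ℤ) = t * t * t := by
      rw [show (3 : ℤ) = ((3 : ℕ) : ℤ) by rfl, zpow_natCast, pow_succ, pow_two]
    rwa [h2] at h1
  · intro x h1 h2
    by_cases hx : x ∈ K
    · exact mem_line hx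
    · obtain ⟨γ, hγ, h3⟩ := hmax x ⟨h1, h2⟩ hx
      obtain ⟨n, -, rfl⟩ := Finset.mem_image.1 hγ
      exact ⟨n, h3⟩

end Pool.Agent.Lib.H84J
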