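import Pool.Agent.Lib.H84J.Defs
import Pool.Agent.Lib.H84J.A1
import Pool.Agent.Lib.H84J.A3

set_option autoImplicit false
set_option linter.unusedSectionVars false

open scoped Classical

namespace Pool.Agent.Lib.H84J

variable {Γ : Type*} [Group Γ] {X : Type*} [MulAction Γ X]

/-- Chunk B3 (M): **the first colouring of the `t`-edges**: `4` on `K`, otherwise `2` or `3`.

**Proof.** `q` from `a1_alt` (`g = t`, `C = K`, `d` constant). `c₀ x = 4` if `x ∈ K`; otherwise `if q x then 2 else 3` if
`x ∈ line t K`; otherwise `if x ∈ E then 2 else 3`. `c₀ (t x) ≠ c₀ x`: if one of `x, t x` is in `K`, the other is not (`hK1`), and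
exactly one of the colours is `4`. If none is in `K`: `x ∈ line t K ↔ t x ∈ line t K` (`line_smul`); in the first case use `q`; in the
second case `x ∉ E`, `t x ∉ E` is impossible by `hK2`, `x ∈ E`, `t x ∈ E` by `hE`, so exactly one of them is in `E`. Measurable:
`Measurable.ite` with `hK`, `a3_line`, `hEm`. -/
theorem b3_c [MeasurableSpace X] (hm : ∀ γ : Γ, Measurable (fun x : X => γ • x)) {t : Γ} {E K : Set X}
    (hEm : MeasurableSet E) (hK : MeasurableSet K) (hE : ∀ x ∈ E, t • x ∉ E) (hK1 : ∀ x ∈ K, t • x ∉ K)
    (hK2 : ∀ x, x ∉ E → t • x ∉ E → x ∈ line t K) :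
    ∃ c₀ : X → Fin 5, Measurable c₀ ∧ (∀ x, c₀ x = 4 ↔ x ∈ K) ∧ (∀ x, 2 ≤ c₀ x) ∧
      ∀ x, c₀ (t • x) ≠ c₀ x := by
  obtain ⟨q, hqm, hq1, -⟩ := a1_alt hm t hK (d := fun _ => true) measurable_const
  have hL : MeasurableSet (line t K) := a3_line hm t hK
  have hqs : MeasurableSet {x | q x = true} := hqm (MeasurableSet.singleton true)
  have h4 : ∀ x, x ∈ K → (if x ∈ K then (4 : Fin 5) else if x ∈ line t K then
      (if q x = true then 2 else 3) else (if x ∈ E then 2 else 3)) = 4 := fun x hx => if_pos hx
  have hn4 : ∀ x, x ∉ K → (if x ∈ K then (4 : Fin 5) else if x ∈ line t K then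
      (if q x = true then 2 else 3) else (if x ∈ E then 2 else 3)) ≠ 4 := by
    intro x hx
    rw [if_neg hx]
    split_ifs <;> decide
  refine ⟨fun x => if x ∈ K then 4 else if x ∈ line t K then (if q x = true then 2 else 3)
    else (if x ∈ E then 2 else 3), ?_, ?_, ?_, ?_⟩
  · exact Measurable.ite hK measurable_const (Measurable.ite hL
      (Measurable.ite hqs measurable_const measurable_const)
      (Measurable.ite hEm measurable_const measurable_const))
  · intro x
    constructor
    · intro h
      by_contra hx
      exact hn4 x hx h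
    · intro hx
      exact h4 x hx
  · intro x
    show (2 : Fin 5) ≤ if x ∈ K then 4 else if x ∈ line t K then (if q x = true then 2 else 3)
      else (if x ∈ E then 2 else 3)
    split_ifs <;> decide
  · intro x
    show (if t • x ∈ K then (4 : Fin 5) else if t • x ∈ line t K then
      (if q (t • x) = true then 2 else 3) else (if t • x ∈ E then 2 else 3)) ≠
      (if x ∈ K then (4 : Fin 5) else if x ∈ line t K then
      (if q x = true then 2 else 3) else (if x ∈ E then 2 else 3))
    by_cases hx : x ∈ K
    · rw [h4 x hx]
      exact hn4 _ (hK1 x hx)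
    · by_cases htx : t • x ∈ K
      · rw [h4 _ htx]
        exact (hn4 x hx).symm
      · rw [if_neg hx, if_neg htx]
        by_cases hl : x ∈ line t K
        · have hl2 : t • x ∈ line t K := line_smul.2 hl
          rw [if_pos hl, if_pos hl2, hq1 x hl hx htx]
          cases q x <;> decide
        · have hl2 : t • x ∉ line t K := fun h => hl (line_smul.1 h)
          rw [if_neg hl, if_neg hl2]
          by_cases hE1 : x ∈ E
          · have hE2 := hE x hE1
            rw [if_pos hE1, if_neg hE2]
            decide
          · have hE2 : t • x ∈ E := by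
              by_contra h
              exact hl (hK2 x hE1 h)
            rw [if_neg hE1, if_pos hE2]
            decide

end Pool.Agent.Lib.H84J
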