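import Pool.Agent.Lib.H84J.Defs
import Pool.Agent.Lib.H84J.A2

set_option autoImplicit false
set_option linter.unusedSectionVars false

open scoped Classical

namespace Pool.Agent.Lib.H84J

variable {Γ : Type*} [Group Γ] {X : Type*} [MulAction Γ X]

/-- Chunk B4 (S/M): **sparse cuts**.

**Proof.** `a2_mis` with `A = B`, `F = {s, s⁻¹}`. If `x ∈ B` and `x ∉ M`, then `s • x ∈ M` or `s⁻¹ • x ∈ M`. -/
theorem b4_cut [MeasurableSpace X] [StandardBorelSpace X] (hm : ∀ γ : Γ, Measurable (fun x : X => γ • x))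
    (hfree : ∀ (γ : Γ) (x : X), γ • x = x → γ = 1) {s : Γ} (hs : orderOf s = 0) {B : Set X} (hB : MeasurableSet B) :
    ∃ M : Set X, M ⊆ B ∧ MeasurableSet M ∧ (∀ x ∈ M, s • x ∉ M) ∧ ∀ x ∈ B, x ∈ line s M := by
  have hs1 : s ≠ 1 := by
    intro h
    rw [h, orderOf_one] at hs
    exact one_ne_zero hs
  have hF1 : ∀ γ ∈ ({s, s⁻¹} : Finset Γ), ∀ x : X, γ • x ≠ x := by
    intro γ hγ x hx
    have h1 := hfree γ x hx
    rcases Finset.mem_insert.1 hγ with h | h
    · exact hs1 (h ▸ h1)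
    · rw [Finset.mem_singleton] at h
      rw [h, inv_eq_one] at h1
      exact hs1 h1
  have hFi : ∀ γ ∈ ({s, s⁻¹} : Finset Γ), γ⁻¹ ∈ ({s, s⁻¹} : Finset Γ) := by
    intro γ hγ
    rcases Finset.mem_insert.1 hγ with h | h
    · rw [h]
      exact Finset.mem_insert_of_mem (Finset.mem_singleton_self _)
    · rw [Finset.mem_singleton] at h
      rw [h, inv_inv]
      exact Finset.mem_insert_self _ _
  obtain ⟨M, hMB, hMm, hind, hmax⟩ := a2_mis hm ({s, s⁻¹} : Finset Γ) hF1 hFi hB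
  refine ⟨M, hMB, hMm, fun x hx => hind x hx s (Finset.mem_insert_self _ _), fun x hx => ?_⟩
  by_cases hxM : x ∈ M
  · exact ⟨0, by rw [zpow_zero, one_smul]; exact hxM⟩
  · obtain ⟨γ, hγ, hγx⟩ := hmax x hx hxM
    rcases Finset.mem_insert.1 hγ with h | h
    · exact ⟨1, by rw [zpow_one, ← h]; exact hγx⟩
    · rw [Finset.mem_singleton] at h
      exact ⟨-1, by rw [zpow_neg_one, ← h]; exact hγx⟩

end Pool.Agent.Lib.H84J
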