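import Pool.Agent.Lib.H84J.Defs
import Pool.Agent.Lib.H84J.B1
import Pool.Agent.Lib.H84J.B2
import Pool.Agent.Lib.H84J.B3
import Pool.Agent.Lib.H84J.B4

set_option autoImplicit false
set_option linter.unusedSectionVars false

open scoped Classical

namespace Pool.Agent.Lib.H84J

variable {Γ : Type*} [Group Γ] {X : Type*} [MulAction Γ X]

/-- Chunk B5 (M): **all choices exist**.

**Proof.** `D` from `b1_D`; `K` from `b2_K` with `E = ends s D`; `c₀` from `b3_c` with `E = ends s D`; `A` from `b4_cut` with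
`B = {x | x ∉ line s D ∧ x ∉ ends t K ∧ s • x ∉ ends t K}`; `P` from `b4_cut` with
`B = {x | x ∉ line s D ∧ x ∉ line s A ∧ x ∈ ends t K ∧ s • x ∈ ends t K ∧ oth t K x ∈ ends s D}`; `Q` likewise. `q₁` from `a1_alt`
(`g = s`, `C = D`, `d = false`), `q₂` (`C = A`, `d = false`), `q₃` (`C = P`, `d y = zz s D q₁ (oth t K y)`), and `q₄` from `a1_alt` with
`g = s⁻¹`, `C = Q`, `d y = zz s D q₁ (oth t K (s • y))`: for `x ∈ line s Q` with `x ∉ Q`, `s • x ∉ Q` apply it at `s • x`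
(`line s⁻¹ Q = line s Q`), it gives `q₄ (s⁻¹ • s • x) = !q₄ (s • x)`; for `x ∈ Q`, `s • x ∉ Q` apply the second property at `s • x`.
Measurability: `a3_ends`, `a3_line`, preimages under `hm`, `oth` and `zz` are `if`s (`{x | oth t K x ∈ ends s D}` is measurable as `oth`
is: `Measurable.ite`). -/
theorem b5_data [MeasurableSpace X] [StandardBorelSpace X] (hm : ∀ γ : Γ, Measurable (fun x : X => γ • x))
    (hfree : ∀ (γ : Γ) (x : X), γ • x = x → γ = 1) {s t : Γ} (hs : orderOf s = 0) (ht : orderOf t = 0)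
    (hts : t ≠ s) (hts' : t ≠ s⁻¹) :
    ∃ (D K A P Q : Set X) (c₀ : X → Fin 5) (q₁ q₂ q₃ q₄ : X → Bool), Data s t D K A P Q c₀ q₁ q₂ q₃ q₄ ∧
      MeasurableSet D ∧ MeasurableSet K ∧ MeasurableSet A ∧ MeasurableSet P ∧ MeasurableSet Q ∧ Measurable c₀ ∧
      Measurable q₁ ∧ Measurable q₂ ∧ Measurable q₃ ∧ Measurable q₄ := by
  obtain ⟨D, hDm, hD1, hD2, hD3⟩ := b1_D hm hfree hs ht hts hts'
  have hED : MeasurableSet (ends s D) := a3_ends hm s hDm
  have hLD : MeasurableSet (line s D) := a3_line hm s hDm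
  obtain ⟨K, hKm, hK1, hK2, hK3⟩ := b2_K hm hfree ht hED
  have hEK : MeasurableSet (ends t K) := a3_ends hm t hKm
  have hsEK : MeasurableSet {x : X | s • x ∈ ends t K} := hm s hEK
  obtain ⟨c₀, hcm, hc4, hc2, hcn⟩ := b3_c hm hED hKm hD2 (fun x hx => (hK2 x hx).1) hK3
  have hoth : Measurable (oth t K : X → X) := Measurable.ite hKm (hm t⁻¹) (hm t)
  have hothD : MeasurableSet {x : X | oth t K x ∈ ends s D} := hoth hED
  have hothsD : MeasurableSet {x : X | oth t K (s • x) ∈ ends s D} := (hoth.comp (hm s)) hED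
  have hBA : MeasurableSet {x : X | x ∉ line s D ∧ x ∉ ends t K ∧ s • x ∉ ends t K} :=
    hLD.compl.inter (hEK.compl.inter hsEK.compl)
  obtain ⟨A, hAB, hAm, hA1, hA2⟩ := b4_cut hm hfree hs hBA
  have hLA : MeasurableSet (line s A) := a3_line hm s hAm
  have hBP : MeasurableSet {x : X | x ∉ line s D ∧ x ∉ line s A ∧ x ∈ ends t K ∧ s • x ∈ ends t K ∧
      oth t K x ∈ ends s D} :=
    hLD.compl.inter (hLA.compl.inter (hEK.inter (hsEK.inter hothD)))
  obtain ⟨P, hPB, hPm, hP1, hP2⟩ := b4_cut hm hfree hs hBP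
  have hLP : MeasurableSet (line s P) := a3_line hm s hPm
  have hBQ : MeasurableSet {x : X | x ∉ line s D ∧ x ∉ line s A ∧ x ∉ line s P ∧ x ∈ ends t K ∧
      s • x ∈ ends t K ∧ oth t K (s • x) ∈ ends s D} :=
    hLD.compl.inter (hLA.compl.inter (hLP.compl.inter (hEK.inter (hsEK.inter hothsD))))
  obtain ⟨Q, hQB, hQm, hQ1, hQ2⟩ := b4_cut hm hfree hs hBQ
  obtain ⟨q₁, hq₁m, hq₁, -⟩ := a1_alt hm s hDm (d := fun _ => false) measurable_const
  obtain ⟨q₂, hq₂m, hq₂, -⟩ := a1_alt hm s hAm (d := fun _ => false) measurable_const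
  have hzz : Measurable (zz s D q₁ : X → Bool) := Measurable.ite hDm (hq₁m.comp (hm s⁻¹)) hq₁m
  obtain ⟨q₃, hq₃m, hq₃, hq₃d⟩ := a1_alt hm s hPm (d := fun y => zz s D q₁ (oth t K y)) (hzz.comp hoth)
  obtain ⟨q₄, hq₄m, hq₄, hq₄d⟩ := a1_alt hm s⁻¹ hQm (d := fun y => zz s D q₁ (oth t K (s • y)))
    (hzz.comp (hoth.comp (hm s)))
  refine ⟨D, K, A, P, Q, c₀, q₁, q₂, q₃, q₄, ?_, hDm, hKm, hAm, hPm, hQm, hcm, hq₁m, hq₂m, hq₃m, hq₄m⟩
  exact
    { D1 := hD1
      D2 := hD2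
      D3 := hD3
      K1 := hK1
      K2 := hK2
      c4 := hc4
      c2 := hc2
      cn := hcn
      A0 := fun x hx => hAB hx
      A1 := hA1
      A2 := fun x h1 h2 h3 => hA2 x ⟨h1, h2, h3⟩
      P0 := fun x hx => hPB hx
      P1 := hP1
      P2 := fun x h1 h2 h3 h4 h5 => hP2 x ⟨h1, h2, h3, h4, h5⟩
      Q0 := fun x hx => hQB hx
      Q1 := hQ1
      Q2 := fun x h1 h2 h3 h4 h5 h6 => hQ2 x ⟨h1, h2, h3, h4, h5, h6⟩
      q1 := hq₁
      q2 := hq₂
      q3 := hq₃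
      q3d := hq₃d
      q4 := by
        intro x hx hxQ hsx
        have hl : s • x ∈ line s⁻¹ Q := by
          obtain ⟨n, hn⟩ := hx
          refine ⟨-(n - 1), ?_⟩
          rw [inv_zpow', neg_neg, smul_smul, ← zpow_add_one, sub_add_cancel]
          exact hn
        have h := hq₄ (s • x) hl hsx (by rw [inv_smul_smul]; exact hxQ)
        rw [inv_smul_smul] at h
        rw [h, Bool.not_not]
      q4d := by
        intro x hx hsx
        have h := hq₄d (s • x) hsx (by rw [inv_smul_smul]; exact hx)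
        rw [inv_smul_smul] at h
        exact h }

end Pool.Agent.Lib.H84J
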