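import Pool.Agent.Lib.H84J.Defs
import Pool.Agent.Lib.H84J.A3

set_option autoImplicit false
set_option linter.unusedSectionVars false

open scoped Classical

namespace Pool.Agent.Lib.H84J

variable {Γ : Type*} [Group Γ] {X : Type*} [MulAction Γ X]

private theorem b6_bc [MeasurableSpace X] {q : X → Bool} (hq : Measurable q) :
    Measurable (fun x => bc (q x)) :=
  (Measurable.of_discrete (f := bc)).comp hq

private theorem b6_mis [MeasurableSpace X] (hm : ∀ γ : Γ, Measurable (fun x : X => γ • x)) (t : Γ)
    {K : Set X} {c₀ : X → Fin 5} (hK : MeasurableSet K) (hc : Measurable c₀) :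
    Measurable (mis t K c₀) := by
  have hx : Measurable (xc t K c₀) := by
    unfold xc
    exact Measurable.ite hK (hc.comp (hm t⁻¹)) hc
  unfold mis
  exact Measurable.ite (hx (MeasurableSet.of_discrete (s := ({2} : Set (Fin 5)))))
    measurable_const measurable_const

private theorem b6_zz [MeasurableSpace X] (hm : ∀ γ : Γ, Measurable (fun x : X => γ • x)) (s : Γ)
    {D : Set X} {q : X → Bool} (hD : MeasurableSet D) (hq : Measurable q) :
    Measurable (zz s D q) := by
  unfold zz
  exact Measurable.ite hD (hq.comp (hm s⁻¹)) hq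

/-- Chunk B6 (S/M): **the colourings are measurable**.

**Proof.** `Measurable.ite` everywhere, `a3_line`, `a3_ends`, `hm`; `bc` and all functions from `Bool` or `Fin 5` are measurable
(`Measurable.of_discrete`). -/
theorem b6_ee [MeasurableSpace X] (hm : ∀ γ : Γ, Measurable (fun x : X => γ • x)) (s t : Γ) {D K A P Q : Set X}
    {c₀ : X → Fin 5} {q₁ q₂ q₃ q₄ : X → Bool} (hD : MeasurableSet D) (hK : MeasurableSet K) (hA : MeasurableSet A)
    (hP : MeasurableSet P) (hQ : MeasurableSet Q) (hc : Measurable c₀) (h1 : Measurable q₁) (h2 : Measurable q₂)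
    (h3 : Measurable q₃) (h4 : Measurable q₄) : Measurable (ee s t D K A P Q c₀ q₁ q₂ q₃ q₄) := by
  unfold ee
  refine Measurable.ite (a3_line hm s hD) (Measurable.ite hD measurable_const (b6_bc h1)) ?_
  refine Measurable.ite (a3_line hm s hA) (Measurable.ite hA measurable_const (b6_bc h2)) ?_
  refine Measurable.ite (a3_line hm s hP)
    (Measurable.ite hP ((b6_mis hm t hK hc).comp (hm s)) (b6_bc h3)) ?_
  refine Measurable.ite (a3_line hm s hQ) (Measurable.ite hQ (b6_mis hm t hK hc) (b6_bc h4)) ?_
  exact Measurable.ite (a3_ends hm t hK) measurable_const measurable_const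

theorem b6_cc [MeasurableSpace X] (hm : ∀ γ : Γ, Measurable (fun x : X => γ • x)) (s t : Γ) {D K P Q : Set X}
    {c₀ : X → Fin 5} {q₁ : X → Bool} (hD : MeasurableSet D) (hK : MeasurableSet K)
    (hP : MeasurableSet P) (hQ : MeasurableSet Q) (hc : Measurable c₀) (h1 : Measurable q₁) :
    Measurable (cc s t D K P Q c₀ q₁) := by
  have hNE : MeasurableSet (NE s P Q) := hP.union ((hm s⁻¹) hQ)
  have hz : Measurable (zz s D q₁) := b6_zz hm s hD h1
  have hb : Measurable (fun b : Bool => bc (!b)) := Measurable.of_discrete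
  unfold cc
  refine Measurable.ite (hNE.inter hK.compl) (hb.comp (hz.comp (hm t))) ?_
  exact Measurable.ite (((hm t) hNE).inter ((hm t) hK)) (hb.comp hz) hc

end Pool.Agent.Lib.H84J
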