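import Mathlib

/-!
# H84J: two generators of infinite order need only five colours (MP_110ff7_lc)

Proof by helper69 (4 December 2026). An `s`-edge is represented by its left end: `x` stands for the edge `{x, s x}`.
The colours `1, 2, 3, 4, 5` of PROOF.md are `0, 1, 2, 3, 4` here.
-/

set_option autoImplicit false

open scoped Classical

namespace Pool.Agent.Lib.H84J

variable {Γ : Type*} [Group Γ] {X : Type*} [MulAction Γ X]

/-- the ends of the edges `{x, g x}`, `x ∈ C` -/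
def ends (g : Γ) (C : Set X) : Set X := {x | x ∈ C ∨ g⁻¹ • x ∈ C}

/-- the union of the `g`-orbits which meet `C` -/
def line (g : Γ) (C : Set X) : Set X := {x | ∃ n : ℤ, g ^ n • x ∈ C}

/-- the end of the reserved `t`-edge at `v` is left out: the other `t`-neighbour of a vertex `v ∈ ends t K` -/
noncomputable def oth (t : Γ) (K : Set X) (v : X) : X := if v ∈ K then t⁻¹ • v else t • v

/-- the colour of the not reserved `t`-edge at `v ∈ ends t K` -/
noncomputable def xc (t : Γ) (K : Set X) (c₀ : X → Fin 5) (v : X) : Fin 5 :=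
  if v ∈ K then c₀ (t⁻¹ • v) else c₀ v

/-- the colour in `{2, 3}` which `v ∈ ends t K` misses -/
noncomputable def mis (t : Γ) (K : Set X) (c₀ : X → Fin 5) (v : X) : Fin 5 := if xc t K c₀ v = 2 then 3 else 2

/-- the two colours of the `s`-lines -/
def bc (b : Bool) : Fin 5 := if b then 1 else 0

/-- the colour (in `{0, 1}`) of the `s`-edge at `w ∈ ends s D` which is not in `D` -/
noncomputable def zz (s : Γ) (D : Set X) (q : X → Bool) (w : X) : Bool := if w ∈ D then q (s⁻¹ • w) else q w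

/-- the chosen near ends -/
def NE (s : Γ) (P Q : Set X) : Set X := {v | v ∈ P ∨ s⁻¹ • v ∈ Q}

/-- All choices of the construction. `D`: the `s`-edges of the first kind (colour `4`); `K`: the reserved `t`-edges
(colour `4`); `c₀`: the first colouring of the `t`-edges; `A`: the cuts of the lines of type (a); `P`, `Q`: the cuts of the
lines of type (b) with the near end on the left, on the right; `q₁, ..., q₄`: the colours of the lines with cuts. -/
structure Data (s t : Γ) (D K A P Q : Set X) (c₀ : X → Fin 5) (q₁ q₂ q₃ q₄ : X → Bool) : Prop where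
  D1 : ∀ x ∈ D, s • x ∉ D
  D2 : ∀ x ∈ ends s D, t • x ∉ ends s D
  D3 : ∀ x, x ∉ line s D → t • x ∈ ends s D ∨ t⁻¹ • x ∈ ends s D ∨
    t • s • x ∈ ends s D ∨ t⁻¹ • s • x ∈ ends s D
  K1 : ∀ x ∈ K, x ∉ ends s D ∧ t • x ∉ ends s D
  K2 : ∀ x ∈ K, t • x ∉ K ∧ t • t • x ∉ K ∧ t • t • t • x ∉ K
  c4 : ∀ x, c₀ x = 4 ↔ x ∈ K
  c2 : ∀ x, 2 ≤ c₀ x
  cn : ∀ x, c₀ (t • x) ≠ c₀ x
  A0 : ∀ x ∈ A, x ∉ line s D ∧ x ∉ ends t K ∧ s • x ∉ ends t K
  A1 : ∀ x ∈ A, s • x ∉ A
  A2 : ∀ x, x ∉ line s D → x ∉ ends t K → s • x ∉ ends t K → x ∈ line s A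
  P0 : ∀ x ∈ P, x ∉ line s D ∧ x ∉ line s A ∧ x ∈ ends t K ∧ s • x ∈ ends t K ∧ oth t K x ∈ ends s D
  P1 : ∀ x ∈ P, s • x ∉ P
  P2 : ∀ x, x ∉ line s D → x ∉ line s A → x ∈ ends t K → s • x ∈ ends t K → oth t K x ∈ ends s D →
    x ∈ line s P
  Q0 : ∀ x ∈ Q, x ∉ line s D ∧ x ∉ line s A ∧ x ∉ line s P ∧ x ∈ ends t K ∧ s • x ∈ ends t K ∧
    oth t K (s • x) ∈ ends s D
  Q1 : ∀ x ∈ Q, s • x ∉ Q
  Q2 : ∀ x, x ∉ line s D → x ∉ line s A → x ∉ line s P → x ∈ ends t K → s • x ∈ ends t K →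
    oth t K (s • x) ∈ ends s D → x ∈ line s Q
  q1 : ∀ x ∈ line s D, x ∉ D → s • x ∉ D → q₁ (s • x) = !q₁ x
  q2 : ∀ x ∈ line s A, x ∉ A → s • x ∉ A → q₂ (s • x) = !q₂ x
  q3 : ∀ x ∈ line s P, x ∉ P → s • x ∉ P → q₃ (s • x) = !q₃ x
  q3d : ∀ x, x ∉ P → s • x ∈ P → q₃ x = zz s D q₁ (oth t K (s • x))
  q4 : ∀ x ∈ line s Q, x ∉ Q → s • x ∉ Q → q₄ (s • x) = !q₄ x
  q4d : ∀ x ∈ Q, s • x ∉ Q → q₄ (s • x) = zz s D q₁ (oth t K (s • x))

/-- the colouring of the `s`-edges -/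
noncomputable def ee (s t : Γ) (D K A P Q : Set X) (c₀ : X → Fin 5) (q₁ q₂ q₃ q₄ : X → Bool) (x : X) : Fin 5 :=
  if x ∈ line s D then (if x ∈ D then 4 else bc (q₁ x))
  else if x ∈ line s A then (if x ∈ A then 4 else bc (q₂ x))
  else if x ∈ line s P then (if x ∈ P then mis t K c₀ (s • x) else bc (q₃ x))
  else if x ∈ line s Q then (if x ∈ Q then mis t K c₀ x else bc (q₄ x))
  else (if x ∈ ends t K then 0 else 1)

/-- the colouring of the `t`-edges -/
noncomputable def cc (s t : Γ) (D K P Q : Set X) (c₀ : X → Fin 5) (q₁ : X → Bool) (x : X) : Fin 5 :=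
  if x ∈ NE s P Q ∧ x ∉ K then bc (!zz s D q₁ (t • x))
  else if t • x ∈ NE s P Q ∧ t • x ∈ K then bc (!zz s D q₁ x)
  else c₀ x

theorem line_smul {g : Γ} {C : Set X} {x : X} : g • x ∈ line g C ↔ x ∈ line g C := by
  constructor
  · rintro ⟨n, hn⟩
    refine ⟨n + 1, ?_⟩
    rw [zpow_add_one, mul_smul]
    exact hn
  · rintro ⟨n, hn⟩
    refine ⟨n - 1, ?_⟩
    rw [smul_smul, ← zpow_add_one, sub_add_cancel]
    exact hn

theorem line_inv_smul {g : Γ} {C : Set X} {x : X} : g⁻¹ • x ∈ line g C ↔ x ∈ line g C := by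
  have h := line_smul (g := g) (C := C) (x := g⁻¹ • x)
  rw [smul_inv_smul] at h
  exact h.symm

theorem mem_line {g : Γ} {C : Set X} {x : X} (h : x ∈ C) : x ∈ line g C := ⟨0, by simpa using h⟩

theorem mem_line_inv {g : Γ} {C : Set X} {x : X} (h : g⁻¹ • x ∈ C) : x ∈ line g C :=
  line_inv_smul.1 (mem_line h)

theorem mem_line_of_ends {g : Γ} {C : Set X} {x : X} (h : x ∈ ends g C) : x ∈ line g C := by
  rcases h with h | h
  · exact mem_line h
  · exact mem_line_inv h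

theorem mem_ends_left {g : Γ} {C : Set X} {x : X} (h : x ∈ C) : x ∈ ends g C := Or.inl h

theorem mem_ends_right {g : Γ} {C : Set X} {x : X} (h : x ∈ C) : g • x ∈ ends g C :=
  Or.inr (by rwa [inv_smul_smul])

end Pool.Agent.Lib.H84J
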