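import Pool.Agent.Lib.H84J.Defs

set_option autoImplicit false
set_option linter.unusedSectionVars false

open scoped Classical

namespace Pool.Agent.Lib.H84J

variable {Γ : Type*} [Group Γ] {X : Type*} [MulAction Γ X]

variable {s t : Γ} {D K A P Q : Set X} {c₀ : X → Fin 5} {q₁ q₂ q₃ q₄ : X → Bool}

private theorem t1_bcge {b : Bool} {c : Fin 5} (h : 2 ≤ c) : bc b ≠ c := by
  intro h1
  rw [← h1] at h
  revert h
  cases b <;> decide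

private theorem t1_bcne (b : Bool) : bc (!b) ≠ bc b := by
  cases b <;> decide

private theorem t1_bc4 (b : Bool) : bc b ≠ 4 := by
  cases b <;> decide

/-- Chunk T1a (S): simple facts.

**Proof.** 1. `v ∈ ends t K`: `v ∈ K` or `t⁻¹ • v ∈ K`, use `K1`. 2. `P0`, `Q0` (`v ∈ P`, or `s⁻¹ • v ∈ Q` and `v = s • s⁻¹ • v`).
3. the same. -/
theorem t1_disj (H : Data s t D K A P Q c₀ q₁ q₂ q₃ q₄) {v : X} (hv : v ∈ ends t K) : v ∉ ends s D := by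
  rcases hv with h | h
  · exact (H.K1 v h).1
  · have := (H.K1 _ h).2
    rwa [smul_inv_smul] at this

theorem t1_ne (H : Data s t D K A P Q c₀ q₁ q₂ q₃ q₄) {v : X} (hv : v ∈ NE s P Q) : v ∈ ends t K := by
  rcases hv with h | h
  · exact (H.P0 v h).2.2.1
  · have := (H.Q0 _ h).2.2.2.2.1
    rwa [smul_inv_smul] at this

theorem t1_oth (H : Data s t D K A P Q c₀ q₁ q₂ q₃ q₄) {v : X} (hv : v ∈ NE s P Q) : oth t K v ∈ ends s D := by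
  rcases hv with h | h
  · exact (H.P0 v h).2.2.2.2
  · have := (H.Q0 _ h).2.2.2.2.2
    rwa [smul_inv_smul] at this

/-- Chunk T1 (M): **the `t`-edges at a vertex of `ends s D`**.

**Proof.** `v ∉ ends t K` (`t1_disj`), so `v ∉ K`, `t⁻¹ • v ∉ K`, so `c₀ v`, `c₀ (t⁻¹ • v)` are in `{2, 3}` (`c4`, `c2`) and different (`cn`);
`v ∉ NE s P Q` (`t1_ne`). `cc v`: the first condition is false (`v ∉ NE`); so `cc v = bc (!zz v)` if `t • v ∈ NE ∧ t • v ∈ K`, and `c₀ v`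
otherwise. `cc (t⁻¹ • v)` (here `t • t⁻¹ • v = v`): `bc (!zz v)` if `t⁻¹ • v ∈ NE ∧ t⁻¹ • v ∉ K`, and `c₀ (t⁻¹ • v)` otherwise. Not both are
changed: then `t • v ∈ K` and `t⁻¹ • v ∈ ends t K`, `t⁻¹ • v ∉ K`, so `y = t⁻¹ • t⁻¹ • v ∈ K` and `t • t • t • y = t • v ∈ K`, against `K2`. -/
theorem t1_ends (H : Data s t D K A P Q c₀ q₁ q₂ q₃ q₄) {v : X} (hv : v ∈ ends s D) :
    cc s t D K P Q c₀ q₁ v ≠ 4 ∧ cc s t D K P Q c₀ q₁ (t⁻¹ • v) ≠ 4 ∧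
      cc s t D K P Q c₀ q₁ v ≠ cc s t D K P Q c₀ q₁ (t⁻¹ • v) ∧
      cc s t D K P Q c₀ q₁ v ≠ bc (zz s D q₁ v) ∧ cc s t D K P Q c₀ q₁ (t⁻¹ • v) ≠ bc (zz s D q₁ v) := by
  have hK : v ∉ ends t K := fun h => t1_disj H h hv
  have hvK : v ∉ K := fun h => hK (Or.inl h)
  have hvK' : t⁻¹ • v ∉ K := fun h => hK (Or.inr h)
  have hNE : v ∉ NE s P Q := fun h => hK (t1_ne H h)
  have a1 : c₀ v ≠ 4 := fun h => hvK ((H.c4 v).1 h)
  have a2 : c₀ (t⁻¹ • v) ≠ 4 := fun h => hvK' ((H.c4 _).1 h)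
  have a3 : 2 ≤ c₀ v := H.c2 v
  have a4 : 2 ≤ c₀ (t⁻¹ • v) := H.c2 _
  have a5 : c₀ v ≠ c₀ (t⁻¹ • v) := by
    have := H.cn (t⁻¹ • v)
    rwa [smul_inv_smul] at this
  have e1 : cc s t D K P Q c₀ q₁ v =
      if t • v ∈ NE s P Q ∧ t • v ∈ K then bc (!zz s D q₁ v) else c₀ v := by
    unfold cc
    rw [if_neg (fun h => hNE h.1)]
  have e2 : cc s t D K P Q c₀ q₁ (t⁻¹ • v) =
      if t⁻¹ • v ∈ NE s P Q ∧ t⁻¹ • v ∉ K then bc (!zz s D q₁ v) else c₀ (t⁻¹ • v) := by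
    unfold cc
    rw [smul_inv_smul, if_neg (c := v ∈ NE s P Q ∧ v ∈ K) (fun h => hNE h.1)]
  rw [e1, e2]
  by_cases ha : t • v ∈ NE s P Q ∧ t • v ∈ K
  · by_cases hb : t⁻¹ • v ∈ NE s P Q ∧ t⁻¹ • v ∉ K
    · exfalso
      have h1 : t⁻¹ • t⁻¹ • v ∈ K := by
        rcases t1_ne H hb.1 with h | h
        · exact absurd h hb.2
        · exact h
      have h2 := (H.K2 _ h1).2.2
      rw [smul_inv_smul, smul_inv_smul] at h2
      exact h2 ha.2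
    · rw [if_pos ha, if_neg hb]
      exact ⟨t1_bc4 _, a2, t1_bcge a4, t1_bcne _, (t1_bcge a4).symm⟩
  · by_cases hb : t⁻¹ • v ∈ NE s P Q ∧ t⁻¹ • v ∉ K
    · rw [if_neg ha, if_pos hb]
      exact ⟨a1, t1_bc4 _, (t1_bcge a3).symm, (t1_bcge a3).symm, t1_bcne _⟩
    · rw [if_neg ha, if_neg hb]
      exact ⟨a1, a2, a5, (t1_bcge a3).symm, (t1_bcge a4).symm⟩

end Pool.Agent.Lib.H84J
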