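import Pool.Agent.Lib.H84J.Defs
import Pool.Agent.Lib.H84J.T1

set_option autoImplicit false
set_option linter.unusedSectionVars false

open scoped Classical

namespace Pool.Agent.Lib.H84J

variable {Γ : Type*} [Group Γ] {X : Type*} [MulAction Γ X]

variable {s t : Γ} {D K A P Q : Set X} {c₀ : X → Fin 5} {q₁ q₂ q₃ q₄ : X → Bool}

/-- Chunk T2 (S/M): **the `t`-edges at an ordinary vertex are not changed**.

**Proof.** `cc v`: the first condition is false as `v ∉ NE`; if `t • v ∈ NE ∧ t • v ∈ K`, then `oth t K (t • v) = t⁻¹ • t • v = v` is in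
`ends s D` (`t1_oth`), contradiction. `cc (t⁻¹ • v)`: if `t⁻¹ • v ∈ NE`, `t⁻¹ • v ∉ K`, then `oth t K (t⁻¹ • v) = t • t⁻¹ • v = v` is in
`ends s D`; the second condition is `v ∈ NE ∧ v ∈ K`, false. -/
theorem t2_ord (H : Data s t D K A P Q c₀ q₁ q₂ q₃ q₄) {v : X} (hv : v ∉ ends s D) (hv' : v ∉ NE s P Q) :
    cc s t D K P Q c₀ q₁ v = c₀ v ∧ cc s t D K P Q c₀ q₁ (t⁻¹ • v) = c₀ (t⁻¹ • v) := by
  constructor
  · unfold cc
    rw [if_neg (fun h => hv' h.1), if_neg]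
    rintro ⟨h1, h2⟩
    have h3 := t1_oth H h1
    rw [oth, if_pos h2, inv_smul_smul] at h3
    exact hv h3
  · unfold cc
    rw [if_neg, if_neg]
    · rintro ⟨h1, -⟩
      rw [smul_inv_smul] at h1
      exact hv' h1
    · rintro ⟨h1, h2⟩
      have h3 := t1_oth H h1
      rw [oth, if_neg h2, smul_inv_smul] at h3
      exact hv h3

/-- Chunk T2 (S/M), second part: **the `t`-edges at a chosen near end**.

**Proof.** `v ∈ ends t K` (`t1_ne`), `oth t K v ∈ ends s D` (`t1_oth`). If `v ∈ K`: `cc v`: first condition false; second: `t • v ∉ K` by `K2`;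
so `cc v = c₀ v = 4` (`c4`). `cc (t⁻¹ • v)`: `t⁻¹ • v = oth t K v ∈ ends s D`, so it is not in `NE` (`t1_ne`, `t1_disj`): first condition
false; second `t • t⁻¹ • v = v ∈ NE ∧ v ∈ K` true: `bc (!zz (t⁻¹ • v))`. If `v ∉ K`: `t⁻¹ • v ∈ K`; `cc (t⁻¹ • v) = c₀ (t⁻¹ • v) = 4`, and
`cc v = bc (!zz (t • v))`, `oth t K v = t • v`. -/
theorem t2_near (H : Data s t D K A P Q c₀ q₁ q₂ q₃ q₄) {v : X} (hv : v ∈ NE s P Q) :
    (cc s t D K P Q c₀ q₁ v = 4 ∧ cc s t D K P Q c₀ q₁ (t⁻¹ • v) = bc (!zz s D q₁ (oth t K v))) ∨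
      (cc s t D K P Q c₀ q₁ v = bc (!zz s D q₁ (oth t K v)) ∧ cc s t D K P Q c₀ q₁ (t⁻¹ • v) = 4) := by
  have he := t1_ne H hv
  have ho := t1_oth H hv
  by_cases hK : v ∈ K
  · left
    rw [oth, if_pos hK] at ho
    constructor
    · unfold cc
      rw [if_neg (fun h => h.2 hK), if_neg (fun h => (H.K2 v hK).1 h.2)]
      exact (H.c4 v).2 hK
    · unfold cc
      rw [oth, if_pos hK, if_neg (fun h => t1_disj H (t1_ne H h.1) ho), smul_inv_smul,
        if_pos ⟨hv, hK⟩]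
  · right
    have hK' : t⁻¹ • v ∈ K := he.resolve_left hK
    constructor
    · unfold cc
      rw [oth, if_neg hK, if_pos ⟨hv, hK⟩]
    · unfold cc
      rw [if_neg (fun h => h.2 hK'), smul_inv_smul, if_neg (fun h => hK h.2)]
      exact (H.c4 _).2 hK'

end Pool.Agent.Lib.H84J
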