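import Pool.Agent.Lib.H84J.Defs

set_option autoImplicit false
set_option linter.unusedSectionVars false

open scoped Classical

namespace Pool.Agent.Lib.H84J

variable {Γ : Type*} [Group Γ] {X : Type*} [MulAction Γ X]

variable {s t : Γ} {D K A P Q : Set X} {c₀ : X → Fin 5} {q₁ q₂ q₃ q₄ : X → Bool}

/-- Chunk U1 (S/M): **the `s`-edges at a vertex of `ends s D`**.

**Proof.** `v`, `s⁻¹ • v ∈ line s D`. If `v ∈ D`: `ee v = 4`, `s⁻¹ • v ∉ D` (`D1`), `ee (s⁻¹ • v) = bc (q₁ (s⁻¹ • v))` and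
`zz v = q₁ (s⁻¹ • v)`. Otherwise `s⁻¹ • v ∈ D`: `ee (s⁻¹ • v) = 4`, `ee v = bc (q₁ v) = bc (zz v)`. -/
theorem u1_ends (H : Data s t D K A P Q c₀ q₁ q₂ q₃ q₄) {v : X} (hv : v ∈ ends s D) :
    (ee s t D K A P Q c₀ q₁ q₂ q₃ q₄ v = 4 ∧
      ee s t D K A P Q c₀ q₁ q₂ q₃ q₄ (s⁻¹ • v) = bc (zz s D q₁ v)) ∨
    (ee s t D K A P Q c₀ q₁ q₂ q₃ q₄ v = bc (zz s D q₁ v) ∧
      ee s t D K A P Q c₀ q₁ q₂ q₃ q₄ (s⁻¹ • v) = 4) := by
  have hl : v ∈ line s D := mem_line_of_ends hv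
  have hl' : s⁻¹ • v ∈ line s D := line_inv_smul.2 hl
  by_cases hD : v ∈ D
  · have hD' : s⁻¹ • v ∉ D := by
      intro h
      have h1 := H.D1 _ h
      rw [smul_inv_smul] at h1
      exact h1 hD
    left
    refine ⟨?_, ?_⟩
    · unfold ee
      rw [if_pos hl, if_pos hD]
    · unfold ee zz
      rw [if_pos hl', if_neg hD', if_pos hD]
  · have hD' : s⁻¹ • v ∈ D := hv.resolve_left hD
    right
    refine ⟨?_, ?_⟩
    · unfold ee zz
      rw [if_pos hl, if_neg hD, if_neg hD]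
    · unfold ee
      rw [if_pos hl', if_pos hD']

/-- Chunk U1, second part (M): **the `s`-edges at a chosen near end**.

**Proof.** If `v ∈ P` (`P0`: `v ∉ line s D`, `v ∉ line s A`; `v`, `s⁻¹ • v ∈ line s P`): `ee v = mis (s • v)`, which is `2` or `3`;
`s⁻¹ • v ∉ P` (`P1`), `ee (s⁻¹ • v) = bc (q₃ (s⁻¹ • v)) = bc (zz (oth t K v))` by `q3d`. If `y = s⁻¹ • v ∈ Q` (`Q0`, also
`y ∉ line s P`): `ee y = mis y`, and `v = s • y ∉ Q` (`Q1`), `ee v = bc (q₄ (s • y)) = bc (zz (oth t K v))` by `q4d`. Lines: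
`line_smul`, `line_inv_smul`, `mem_line`, `mem_line_inv`. -/
theorem u1_near (H : Data s t D K A P Q c₀ q₁ q₂ q₃ q₄) {v : X} (hv : v ∈ NE s P Q) :
    ∃ m : Fin 5, (m = 2 ∨ m = 3) ∧
      ((ee s t D K A P Q c₀ q₁ q₂ q₃ q₄ v = m ∧ ee s t D K A P Q c₀ q₁ q₂ q₃ q₄ (s⁻¹ • v) = bc (zz s D q₁ (oth t K v))) ∨
      (ee s t D K A P Q c₀ q₁ q₂ q₃ q₄ v = bc (zz s D q₁ (oth t K v)) ∧ ee s t D K A P Q c₀ q₁ q₂ q₃ q₄ (s⁻¹ • v) = m)) := by
  have hmis : ∀ x : X, mis t K c₀ x = 2 ∨ mis t K c₀ x = 3 := by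
    intro x
    unfold mis
    split_ifs
    · exact Or.inr rfl
    · exact Or.inl rfl
  by_cases hP : v ∈ P
  · obtain ⟨h1, h2, -, -, -⟩ := H.P0 v hP
    have h3 : v ∈ line s P := mem_line hP
    have hP' : s⁻¹ • v ∉ P := by
      intro h
      have h4 := H.P1 _ h
      rw [smul_inv_smul] at h4
      exact h4 hP
    refine ⟨mis t K c₀ (s • v), hmis _, Or.inl ⟨?_, ?_⟩⟩
    · unfold ee
      rw [if_neg h1, if_neg h2, if_pos h3, if_pos hP]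
    · have h5 := H.q3d (s⁻¹ • v) hP' (by rwa [smul_inv_smul])
      rw [smul_inv_smul] at h5
      unfold ee
      rw [if_neg (fun h => h1 (line_inv_smul.1 h)), if_neg (fun h => h2 (line_inv_smul.1 h)),
        if_pos (line_inv_smul.2 h3), if_neg hP', h5]
  · have hQ : s⁻¹ • v ∈ Q := Or.resolve_left hv hP
    obtain ⟨h1, h2, h3, -, -, -⟩ := H.Q0 _ hQ
    have h4 : s⁻¹ • v ∈ line s Q := mem_line hQ
    have hQ' := H.Q1 _ hQ
    have h5 := H.q4d _ hQ hQ'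
    rw [smul_inv_smul] at hQ' h5
    refine ⟨mis t K c₀ (s⁻¹ • v), hmis _, Or.inr ⟨?_, ?_⟩⟩
    · unfold ee
      rw [if_neg (fun h => h1 (line_inv_smul.2 h)), if_neg (fun h => h2 (line_inv_smul.2 h)),
        if_neg (fun h => h3 (line_inv_smul.2 h)), if_pos (line_inv_smul.1 h4), if_neg hQ', h5]
    · unfold ee
      rw [if_neg h1, if_neg h2, if_neg h3, if_pos h4, if_pos hQ]

end Pool.Agent.Lib.H84J
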