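import Pool.Agent.Lib.H84J.Defs
import Pool.Agent.Lib.H84J.T1

set_option autoImplicit false
set_option linter.unusedSectionVars false

open scoped Classical

namespace Pool.Agent.Lib.H84J

variable {Γ : Type*} [Group Γ] {X : Type*} [MulAction Γ X]

variable {s t : Γ} {D K A P Q : Set X} {c₀ : X → Fin 5} {q₁ q₂ q₃ q₄ : X → Bool}

private theorem U2_bc_not (b : Bool) : bc (!b) ≠ bc b := by
  cases b <;> unfold bc <;> decide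

private theorem U2_four_bc (b : Bool) : (4 : Fin 5) ≠ bc b := by
  cases b <;> unfold bc <;> decide

/-- Chunk U2a (S): the colour `4` and the colour `mis v` at `v`.

**Proof.** 1. `v ∉ K` and `t⁻¹ • v ∉ K`, use `c4`. 2. `v ∈ K`: `xc = c₀ (t⁻¹ • v)` and `c₀ v = 4`, `mis` is `2` or `3` and different from `xc`
(`xc ≠ 4` as `t⁻¹ • v ∉ K` by `K2`, `xc ≥ 2`). `v ∉ K`: `t⁻¹ • v ∈ K`, `xc = c₀ v`, `c₀ (t⁻¹ • v) = 4`. 3. `bc b ≤ 1`, `c₀ ≥ 2`. -/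
theorem u2_four (H : Data s t D K A P Q c₀ q₁ q₂ q₃ q₄) {v : X} (hv : v ∉ ends t K) :
    (4 : Fin 5) ≠ c₀ v ∧ (4 : Fin 5) ≠ c₀ (t⁻¹ • v) := by
  have h1 : v ∉ K := fun h => hv (Or.inl h)
  have h2 : t⁻¹ • v ∉ K := fun h => hv (Or.inr h)
  exact ⟨fun h => h1 ((H.c4 v).1 h.symm), fun h => h2 ((H.c4 (t⁻¹ • v)).1 h.symm)⟩

theorem u2_mis (H : Data s t D K A P Q c₀ q₁ q₂ q₃ q₄) {v : X} (hv : v ∈ ends t K) :
    mis t K c₀ v ≠ c₀ v ∧ mis t K c₀ v ≠ c₀ (t⁻¹ • v) := by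
  have key : ∀ x : Fin 5, 2 ≤ x → x ≠ 4 →
      (if x = 2 then (3 : Fin 5) else 2) ≠ x ∧ (if x = 2 then (3 : Fin 5) else 2) ≠ 4 := by
    decide
  by_cases hK : v ∈ K
  · have h2 : t⁻¹ • v ∉ K := by
      intro h
      have h3 := (H.K2 _ h).1
      rw [smul_inv_smul] at h3
      exact h3 hK
    have h4 : c₀ (t⁻¹ • v) ≠ 4 := fun h => h2 ((H.c4 _).1 h)
    have h5 := key _ (H.c2 (t⁻¹ • v)) h4
    have h6 : mis t K c₀ v = if c₀ (t⁻¹ • v) = 2 then 3 else 2 := by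
      unfold mis xc
      simp only [if_pos hK]
    rw [h6, (H.c4 v).2 hK]
    exact ⟨h5.2, h5.1⟩
  · have h2 : t⁻¹ • v ∈ K := hv.resolve_left hK
    have h4 : c₀ v ≠ 4 := fun h => hK ((H.c4 _).1 h)
    have h5 := key _ (H.c2 v) h4
    have h6 : mis t K c₀ v = if c₀ v = 2 then 3 else 2 := by
      unfold mis xc
      simp only [if_neg hK]
    rw [h6, (H.c4 (t⁻¹ • v)).2 h2]
    exact h5

theorem u2_bc (H : Data s t D K A P Q c₀ q₁ q₂ q₃ q₄) (b : Bool) (v : X) : bc b ≠ c₀ v := by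
  have key : ∀ (b : Bool) (x : Fin 5), 2 ≤ x → bc b ≠ x := by
    unfold bc
    decide
  exact key b _ (H.c2 v)

/-- Chunk U2 (S/M): **the `s`-edges at an ordinary vertex on a line with an edge of `D`**.

**Proof.** `v ∉ D`, `s⁻¹ • v ∉ D`; both are in `line s D`: colours `bc (q₁ v)`, `bc (q₁ (s⁻¹ • v))`, different by `q1` at `s⁻¹ • v`; `u2_bc`. -/
theorem u2_D (H : Data s t D K A P Q c₀ q₁ q₂ q₃ q₄) {v : X} (hv : v ∉ ends s D) (hl : v ∈ line s D) :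
    ee s t D K A P Q c₀ q₁ q₂ q₃ q₄ v ≠ ee s t D K A P Q c₀ q₁ q₂ q₃ q₄ (s⁻¹ • v) ∧
      ee s t D K A P Q c₀ q₁ q₂ q₃ q₄ v ≠ c₀ v ∧ ee s t D K A P Q c₀ q₁ q₂ q₃ q₄ v ≠ c₀ (t⁻¹ • v) ∧
      ee s t D K A P Q c₀ q₁ q₂ q₃ q₄ (s⁻¹ • v) ≠ c₀ v ∧ ee s t D K A P Q c₀ q₁ q₂ q₃ q₄ (s⁻¹ • v) ≠ c₀ (t⁻¹ • v) := by
  have h1 : v ∉ D := fun h => hv (Or.inl h)
  have h2 : s⁻¹ • v ∉ D := fun h => hv (Or.inr h)
  have hl' : s⁻¹ • v ∈ line s D := line_inv_smul.2 hl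
  have e1 : ee s t D K A P Q c₀ q₁ q₂ q₃ q₄ v = bc (q₁ v) := by
    unfold ee
    rw [if_pos hl, if_neg h1]
  have e2 : ee s t D K A P Q c₀ q₁ q₂ q₃ q₄ (s⁻¹ • v) = bc (q₁ (s⁻¹ • v)) := by
    unfold ee
    rw [if_pos hl', if_neg h2]
  have e3 : q₁ v = !q₁ (s⁻¹ • v) := by
    have h3 := H.q1 (s⁻¹ • v) hl' h2 (by rwa [smul_inv_smul])
    rwa [smul_inv_smul] at h3
  rw [e1, e2]
  exact ⟨by rw [e3]; exact U2_bc_not _, u2_bc H _ _, u2_bc H _ _, u2_bc H _ _, u2_bc H _ _⟩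

/-- Chunk U2 (S/M), second part: **a vertex on a line of type (a)**.

**Proof.** If `v ∈ A`: `s⁻¹ • v ∉ A` (`A1`), colours `4` and `bc _`; `v ∉ ends t K` by `A0`, use `u2_four`. If `s⁻¹ • v ∈ A`: `v ∉ A`, `v = s • s⁻¹ • v`
is not in `ends t K` by `A0`. Otherwise `bc (q₂ v)`, `bc (q₂ (s⁻¹ • v))`, different by `q2`. -/
theorem u2_A (H : Data s t D K A P Q c₀ q₁ q₂ q₃ q₄) {v : X} (hl : v ∉ line s D) (hl' : v ∈ line s A) :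
    ee s t D K A P Q c₀ q₁ q₂ q₃ q₄ v ≠ ee s t D K A P Q c₀ q₁ q₂ q₃ q₄ (s⁻¹ • v) ∧
      ee s t D K A P Q c₀ q₁ q₂ q₃ q₄ v ≠ c₀ v ∧ ee s t D K A P Q c₀ q₁ q₂ q₃ q₄ v ≠ c₀ (t⁻¹ • v) ∧
      ee s t D K A P Q c₀ q₁ q₂ q₃ q₄ (s⁻¹ • v) ≠ c₀ v ∧ ee s t D K A P Q c₀ q₁ q₂ q₃ q₄ (s⁻¹ • v) ≠ c₀ (t⁻¹ • v) := by
  have hlD : s⁻¹ • v ∉ line s D := fun h => hl (line_inv_smul.1 h)
  have hlA : s⁻¹ • v ∈ line s A := line_inv_smul.2 hl'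
  by_cases h1 : v ∈ A
  · have h2 : s⁻¹ • v ∉ A := by
      intro h
      have h3 := H.A1 _ h
      rw [smul_inv_smul] at h3
      exact h3 h1
    have hK : v ∉ ends t K := (H.A0 v h1).2.1
    have e1 : ee s t D K A P Q c₀ q₁ q₂ q₃ q₄ v = 4 := by
      unfold ee
      rw [if_neg hl, if_pos hl', if_pos h1]
    have e2 : ee s t D K A P Q c₀ q₁ q₂ q₃ q₄ (s⁻¹ • v) = bc (q₂ (s⁻¹ • v)) := by
      unfold ee
      rw [if_neg hlD, if_pos hlA, if_neg h2]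
    rw [e1, e2]
    exact ⟨U2_four_bc _, (u2_four H hK).1, (u2_four H hK).2, u2_bc H _ _, u2_bc H _ _⟩
  · by_cases h2 : s⁻¹ • v ∈ A
    · have hK : v ∉ ends t K := by
        have h3 := (H.A0 _ h2).2.2
        rwa [smul_inv_smul] at h3
      have e1 : ee s t D K A P Q c₀ q₁ q₂ q₃ q₄ v = bc (q₂ v) := by
        unfold ee
        rw [if_neg hl, if_pos hl', if_neg h1]
      have e2 : ee s t D K A P Q c₀ q₁ q₂ q₃ q₄ (s⁻¹ • v) = 4 := by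
        unfold ee
        rw [if_neg hlD, if_pos hlA, if_pos h2]
      rw [e1, e2]
      exact ⟨(U2_four_bc _).symm, u2_bc H _ _, u2_bc H _ _, (u2_four H hK).1, (u2_four H hK).2⟩
    · have e1 : ee s t D K A P Q c₀ q₁ q₂ q₃ q₄ v = bc (q₂ v) := by
        unfold ee
        rw [if_neg hl, if_pos hl', if_neg h1]
      have e2 : ee s t D K A P Q c₀ q₁ q₂ q₃ q₄ (s⁻¹ • v) = bc (q₂ (s⁻¹ • v)) := by
        unfold ee
        rw [if_neg hlD, if_pos hlA, if_neg h2]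
      have e3 : q₂ v = !q₂ (s⁻¹ • v) := by
        have h3 := H.q2 (s⁻¹ • v) hlA h2 (by rwa [smul_inv_smul])
        rwa [smul_inv_smul] at h3
      rw [e1, e2]
      exact ⟨by rw [e3]; exact U2_bc_not _, u2_bc H _ _, u2_bc H _ _, u2_bc H _ _, u2_bc H _ _⟩

end Pool.Agent.Lib.H84J
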