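import Pool.Agent.Lib.H84J.Defs
import Pool.Agent.Lib.H84J.U2

set_option autoImplicit false
set_option linter.unusedSectionVars false

open scoped Classical

namespace Pool.Agent.Lib.H84J

variable {Γ : Type*} [Group Γ] {X : Type*} [MulAction Γ X]

variable {s t : Γ} {D K A P Q : Set X} {c₀ : X → Fin 5} {q₁ q₂ q₃ q₄ : X → Bool}

private theorem u3_bcmis (b : Bool) (v : X) : bc b ≠ mis t K c₀ v := by
  unfold mis
  split_ifs <;> cases b <;> decide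

private theorem u3_bcne (b : Bool) : bc (!b) ≠ bc b := by
  cases b <;> decide

/-- Chunk U3 (M): **a vertex on a line of type (b), near ends on the left**.

**Proof.** `v ∉ P` as `v ∉ NE`. If `s⁻¹ • v ∈ P`: `ee (s⁻¹ • v) = mis (s • s⁻¹ • v) = mis v`, `v ∈ ends t K` by `P0`, `ee v = bc (q₃ v)`; use
`u2_mis`, `u2_bc` (`mis v ≥ 2` and `bc _ ≤ 1` are different). Otherwise `bc (q₃ v)` and `bc (q₃ (s⁻¹ • v))`, different by `q3`. -/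
theorem u3_P (H : Data s t D K A P Q c₀ q₁ q₂ q₃ q₄) {v : X} (hv : v ∉ NE s P Q) (h1 : v ∉ line s D)
    (h2 : v ∉ line s A) (h3 : v ∈ line s P) :
    ee s t D K A P Q c₀ q₁ q₂ q₃ q₄ v ≠ ee s t D K A P Q c₀ q₁ q₂ q₃ q₄ (s⁻¹ • v) ∧
      ee s t D K A P Q c₀ q₁ q₂ q₃ q₄ v ≠ c₀ v ∧ ee s t D K A P Q c₀ q₁ q₂ q₃ q₄ v ≠ c₀ (t⁻¹ • v) ∧
      ee s t D K A P Q c₀ q₁ q₂ q₃ q₄ (s⁻¹ • v) ≠ c₀ v ∧ ee s t D K A P Q c₀ q₁ q₂ q₃ q₄ (s⁻¹ • v) ≠ c₀ (t⁻¹ • v) := by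
  have hP : v ∉ P := fun h => hv (Or.inl h)
  have h1' : s⁻¹ • v ∉ line s D := fun h => h1 (line_inv_smul.1 h)
  have h2' : s⁻¹ • v ∉ line s A := fun h => h2 (line_inv_smul.1 h)
  have h3' : s⁻¹ • v ∈ line s P := line_inv_smul.2 h3
  have e1 : ee s t D K A P Q c₀ q₁ q₂ q₃ q₄ v = bc (q₃ v) := by
    unfold ee
    rw [if_neg h1, if_neg h2, if_pos h3, if_neg hP]
  by_cases hs : s⁻¹ • v ∈ P
  · have e2 : ee s t D K A P Q c₀ q₁ q₂ q₃ q₄ (s⁻¹ • v) = mis t K c₀ v := by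
      unfold ee
      rw [if_neg h1', if_neg h2', if_pos h3', if_pos hs, smul_inv_smul]
    have hvK : v ∈ ends t K := by
      have := (H.P0 _ hs).2.2.2.1
      rwa [smul_inv_smul] at this
    rw [e1, e2]
    exact ⟨u3_bcmis _ _, u2_bc H _ _, u2_bc H _ _, (u2_mis H hvK).1, (u2_mis H hvK).2⟩
  · have e2 : ee s t D K A P Q c₀ q₁ q₂ q₃ q₄ (s⁻¹ • v) = bc (q₃ (s⁻¹ • v)) := by
      unfold ee
      rw [if_neg h1', if_neg h2', if_pos h3', if_neg hs]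
    have e3 : q₃ v = !q₃ (s⁻¹ • v) := by
      have := H.q3 (s⁻¹ • v) h3' hs (by rwa [smul_inv_smul])
      rwa [smul_inv_smul] at this
    rw [e1, e2, e3]
    exact ⟨u3_bcne _, u2_bc H _ _, u2_bc H _ _, u2_bc H _ _, u2_bc H _ _⟩

/-- Chunk U3 (M), second part: **a vertex on a line of type (b), near ends on the right**.

**Proof.** `s⁻¹ • v ∉ Q` as `v ∉ NE`. If `v ∈ Q`: `ee v = mis v`, `v ∈ ends t K` by `Q0`, `ee (s⁻¹ • v) = bc (q₄ (s⁻¹ • v))`; use `u2_mis`,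
`u2_bc`. Otherwise `bc (q₄ v)` and `bc (q₄ (s⁻¹ • v))`, different by `q4`. -/
theorem u3_Q (H : Data s t D K A P Q c₀ q₁ q₂ q₃ q₄) {v : X} (hv : v ∉ NE s P Q) (h1 : v ∉ line s D)
    (h2 : v ∉ line s A) (h3 : v ∉ line s P) (h4 : v ∈ line s Q) :
    ee s t D K A P Q c₀ q₁ q₂ q₃ q₄ v ≠ ee s t D K A P Q c₀ q₁ q₂ q₃ q₄ (s⁻¹ • v) ∧
      ee s t D K A P Q c₀ q₁ q₂ q₃ q₄ v ≠ c₀ v ∧ ee s t D K A P Q c₀ q₁ q₂ q₃ q₄ v ≠ c₀ (t⁻¹ • v) ∧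
      ee s t D K A P Q c₀ q₁ q₂ q₃ q₄ (s⁻¹ • v) ≠ c₀ v ∧ ee s t D K A P Q c₀ q₁ q₂ q₃ q₄ (s⁻¹ • v) ≠ c₀ (t⁻¹ • v) := by
  have hQ : s⁻¹ • v ∉ Q := fun h => hv (Or.inr h)
  have h1' : s⁻¹ • v ∉ line s D := fun h => h1 (line_inv_smul.1 h)
  have h2' : s⁻¹ • v ∉ line s A := fun h => h2 (line_inv_smul.1 h)
  have h3' : s⁻¹ • v ∉ line s P := fun h => h3 (line_inv_smul.1 h)
  have h4' : s⁻¹ • v ∈ line s Q := line_inv_smul.2 h4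
  have e2 : ee s t D K A P Q c₀ q₁ q₂ q₃ q₄ (s⁻¹ • v) = bc (q₄ (s⁻¹ • v)) := by
    unfold ee
    rw [if_neg h1', if_neg h2', if_neg h3', if_pos h4', if_neg hQ]
  by_cases hs : v ∈ Q
  · have e1 : ee s t D K A P Q c₀ q₁ q₂ q₃ q₄ v = mis t K c₀ v := by
      unfold ee
      rw [if_neg h1, if_neg h2, if_neg h3, if_pos h4, if_pos hs]
    have hvK : v ∈ ends t K := (H.Q0 _ hs).2.2.2.1
    rw [e1, e2]
    exact ⟨(u3_bcmis _ _).symm, (u2_mis H hvK).1, (u2_mis H hvK).2, u2_bc H _ _, u2_bc H _ _⟩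
  · have e1 : ee s t D K A P Q c₀ q₁ q₂ q₃ q₄ v = bc (q₄ v) := by
      unfold ee
      rw [if_neg h1, if_neg h2, if_neg h3, if_pos h4, if_neg hs]
    have e3 : q₄ v = !q₄ (s⁻¹ • v) := by
      have := H.q4 (s⁻¹ • v) h4' hQ (by rwa [smul_inv_smul])
      rwa [smul_inv_smul] at this
    rw [e1, e2, e3]
    exact ⟨u3_bcne _, u2_bc H _ _, u2_bc H _ _, u2_bc H _ _, u2_bc H _ _⟩

end Pool.Agent.Lib.H84J
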