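import Pool.Agent.Lib.H84J.Defs
import Pool.Agent.Lib.H84J.T1

set_option autoImplicit false
set_option linter.unusedSectionVars false

open scoped Classical

namespace Pool.Agent.Lib.H84J

variable {Γ : Type*} [Group Γ] {X : Type*} [MulAction Γ X]

variable {s t : Γ} {D K A P Q : Set X} {c₀ : X → Fin 5} {q₁ q₂ q₃ q₄ : X → Bool}

/-- Chunk U4 (M): **a line without cuts alternates** between `ends t K` and its complement.

**Proof.** Let `x` be a vertex of such a line. Not both `x`, `s • x` are outside `ends t K` (`A2`). Suppose both are in it. By `D3` one of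
`t • x`, `t⁻¹ • x`, `t • s • x`, `t⁻¹ • s • x` is in `ends s D`. If `t • x` or `t⁻¹ • x` is: `x ∈ K` or `t⁻¹ • x ∈ K`; in the first case
`t • x ∉ ends s D` by `K1`, so `t⁻¹ • x = oth t K x ∈ ends s D`; in the second case (if `x ∉ K`) `t⁻¹ • x ∉ ends s D` by `K1`, so
`t • x = oth t K x ∈ ends s D`; so `x ∈ line s P` by `P2`, contradiction. In the same way `oth t K (s • x) ∈ ends s D` in the other case
and `x ∈ line s Q` by `Q2`. -/
theorem u4_alt (H : Data s t D K A P Q c₀ q₁ q₂ q₃ q₄) {x : X} (h1 : x ∉ line s D)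
    (h2 : x ∉ line s A) (h3 : x ∉ line s P) (h4 : x ∉ line s Q) : x ∈ ends t K ↔ s • x ∉ ends t K := by
  have key : ∀ w : X, w ∈ ends t K → (t • w ∈ ends s D ∨ t⁻¹ • w ∈ ends s D) → oth t K w ∈ ends s D := by
    intro w hw h
    by_cases hK : w ∈ K
    · rcases h with h | h
      · exact absurd h (H.K1 w hK).2
      · unfold oth
        rw [if_pos hK]
        exact h
    · rcases h with h | h
      · unfold oth
        rw [if_neg hK]
        exact h
      · rcases hw with hw | hw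
        · exact absurd hw hK
        · exact absurd h (H.K1 _ hw).1
  constructor
  · intro hx hsx
    have h5 : oth t K x ∉ ends s D := fun h => h3 (H.P2 x h1 h2 hx hsx h)
    have h6 : oth t K (s • x) ∉ ends s D := fun h => h4 (H.Q2 x h1 h2 h3 hx hsx h)
    rcases H.D3 x h1 with h | h | h | h
    · exact h5 (key x hx (Or.inl h))
    · exact h5 (key x hx (Or.inr h))
    · exact h6 (key (s • x) hsx (Or.inl h))
    · exact h6 (key (s • x) hsx (Or.inr h))
  · intro hsx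
    by_contra hx
    exact h2 (H.A2 x h1 hx hsx)

/-- Chunk U4, second part (S/M): **a vertex on a line of type (c)**.

**Proof.** `ee v` is `0` if `v ∈ ends t K` and `1` otherwise, the same for `s⁻¹ • v`, and exactly one of `v`, `s⁻¹ • v` is in `ends t K`
(`u4_alt` at `s⁻¹ • v`). `c₀ ≥ 2`. -/
theorem u4_C (H : Data s t D K A P Q c₀ q₁ q₂ q₃ q₄) {v : X} (h1 : v ∉ line s D)
    (h2 : v ∉ line s A) (h3 : v ∉ line s P) (h4 : v ∉ line s Q) :
    ee s t D K A P Q c₀ q₁ q₂ q₃ q₄ v ≠ ee s t D K A P Q c₀ q₁ q₂ q₃ q₄ (s⁻¹ • v) ∧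
      ee s t D K A P Q c₀ q₁ q₂ q₃ q₄ v ≠ c₀ v ∧ ee s t D K A P Q c₀ q₁ q₂ q₃ q₄ v ≠ c₀ (t⁻¹ • v) ∧
      ee s t D K A P Q c₀ q₁ q₂ q₃ q₄ (s⁻¹ • v) ≠ c₀ v ∧ ee s t D K A P Q c₀ q₁ q₂ q₃ q₄ (s⁻¹ • v) ≠ c₀ (t⁻¹ • v) := by
  have g1 : s⁻¹ • v ∉ line s D := fun h => h1 (line_inv_smul.1 h)
  have g2 : s⁻¹ • v ∉ line s A := fun h => h2 (line_inv_smul.1 h)
  have g3 : s⁻¹ • v ∉ line s P := fun h => h3 (line_inv_smul.1 h)
  have g4 : s⁻¹ • v ∉ line s Q := fun h => h4 (line_inv_smul.1 h)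
  have e1 : ee s t D K A P Q c₀ q₁ q₂ q₃ q₄ v = if v ∈ ends t K then 0 else 1 := by
    unfold ee
    rw [if_neg h1, if_neg h2, if_neg h3, if_neg h4]
  have e2 : ee s t D K A P Q c₀ q₁ q₂ q₃ q₄ (s⁻¹ • v) = if s⁻¹ • v ∈ ends t K then 0 else 1 := by
    unfold ee
    rw [if_neg g1, if_neg g2, if_neg g3, if_neg g4]
  have alt := u4_alt H g1 g2 g3 g4
  rw [smul_inv_smul] at alt
  have hc := H.c2 v
  have hc' := H.c2 (t⁻¹ • v)
  have big : ∀ a : Fin 5, 2 ≤ a → (0 : Fin 5) ≠ a ∧ (1 : Fin 5) ≠ a := by decide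
  obtain ⟨b0, b1⟩ := big _ hc
  obtain ⟨b0', b1'⟩ := big _ hc'
  by_cases hv : v ∈ ends t K
  · have hw : s⁻¹ • v ∉ ends t K := fun h => alt.1 h hv
    rw [e1, e2, if_pos hv, if_neg hw]
    exact ⟨by decide, b0, b0', b1, b1'⟩
  · have hw : s⁻¹ • v ∈ ends t K := alt.2 hv
    rw [e1, e2, if_neg hv, if_pos hw]
    exact ⟨by decide, b1, b1', b0, b0'⟩

end Pool.Agent.Lib.H84J
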