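import Pool.Agent.Lib.H84J.Defs
import Pool.Agent.Lib.H84J.B5
import Pool.Agent.Lib.H84J.B6
import Pool.Agent.Lib.H84J.T2
import Pool.Agent.Lib.H84J.U1
import Pool.Agent.Lib.H84J.U3
import Pool.Agent.Lib.H84J.U4
import Pool.Agent.Lib.H84E.K

set_option autoImplicit false
set_option linter.unusedSectionVars false

open scoped Classical

namespace Pool.Agent.Lib.H84J

variable {Γ : Type*} [Group Γ] {X : Type*} [MulAction Γ X]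

variable {s t : Γ} {D K A P Q : Set X} {c₀ : X → Fin 5} {q₁ q₂ q₃ q₄ : X → Bool}

theorem f1_bc (b : Bool) : bc b ≠ 4 := by
  cases b <;> decide

theorem f1_near_dec (z : Bool) (m : Fin 5) (hm : m = 2 ∨ m = 3) :
    m ≠ bc z ∧ m ≠ bc (!z) ∧ m ≠ 4 ∧ bc z ≠ bc (!z) := by
  rcases hm with rfl | rfl <;> cases z <;> decide

/-- Chunk F1 (M): **the four colours at a vertex are different**.

**Proof.** `v ∈ ends s D`: `t1_ends` and `u1_ends` (`bc _ ≠ 4`). `v ∈ NE s P Q`: `t2_near` and `u1_near` (`bc b ≠ bc (!b)`, `bc _ ≤ 1`).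
Otherwise `t2_ord`, `cn` (at `t⁻¹ • v`), and `u2_D`, `u2_A`, `u3_P`, `u3_Q`, `u4_C` according to the line. -/
theorem f1_vertex (H : Data s t D K A P Q c₀ q₁ q₂ q₃ q₄) (v : X) :
    ee s t D K A P Q c₀ q₁ q₂ q₃ q₄ v ≠ ee s t D K A P Q c₀ q₁ q₂ q₃ q₄ (s⁻¹ • v) ∧
      cc s t D K P Q c₀ q₁ v ≠ cc s t D K P Q c₀ q₁ (t⁻¹ • v) ∧
      cc s t D K P Q c₀ q₁ v ≠ ee s t D K A P Q c₀ q₁ q₂ q₃ q₄ v ∧
      cc s t D K P Q c₀ q₁ v ≠ ee s t D K A P Q c₀ q₁ q₂ q₃ q₄ (s⁻¹ • v) ∧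
      cc s t D K P Q c₀ q₁ (t⁻¹ • v) ≠ ee s t D K A P Q c₀ q₁ q₂ q₃ q₄ v ∧
      cc s t D K P Q c₀ q₁ (t⁻¹ • v) ≠ ee s t D K A P Q c₀ q₁ q₂ q₃ q₄ (s⁻¹ • v) := by
  by_cases hv : v ∈ ends s D
  · obtain ⟨h1, h2, h3, h4, h5⟩ := t1_ends H hv
    have h6 := f1_bc (zz s D q₁ v)
    rcases u1_ends H hv with ⟨h7, h8⟩ | ⟨h7, h8⟩
    · rw [h7, h8]
      exact ⟨h6.symm, h3, h1, h4, h2, h5⟩
    · rw [h7, h8]
      exact ⟨h6, h3, h4, h1, h5, h2⟩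
  by_cases hv' : v ∈ NE s P Q
  · obtain ⟨m, hm, h⟩ := u1_near H hv'
    obtain ⟨d1, d2, d3, d4⟩ := f1_near_dec (zz s D q₁ (oth t K v)) m hm
    have d5 := f1_bc (zz s D q₁ (oth t K v))
    have d6 := f1_bc (!zz s D q₁ (oth t K v))
    rcases h with ⟨h1, h2⟩ | ⟨h1, h2⟩ <;> rcases t2_near H hv' with ⟨h3, h4⟩ | ⟨h3, h4⟩ <;>
      rw [h1, h2, h3, h4]
    · exact ⟨d1, d6.symm, d3.symm, d5.symm, d2.symm, d4.symm⟩
    · exact ⟨d1, d6, d2.symm, d4.symm, d3.symm, d5.symm⟩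
    · exact ⟨d1.symm, d6.symm, d5.symm, d3.symm, d4.symm, d2.symm⟩
    · exact ⟨d1.symm, d6, d4.symm, d2.symm, d5.symm, d3.symm⟩
  obtain ⟨h1, h2⟩ := t2_ord H hv hv'
  have h3 : c₀ v ≠ c₀ (t⁻¹ • v) := by
    have h := H.cn (t⁻¹ • v)
    rwa [smul_inv_smul] at h
  have h4 : ee s t D K A P Q c₀ q₁ q₂ q₃ q₄ v ≠ ee s t D K A P Q c₀ q₁ q₂ q₃ q₄ (s⁻¹ • v) ∧
      ee s t D K A P Q c₀ q₁ q₂ q₃ q₄ v ≠ c₀ v ∧ ee s t D K A P Q c₀ q₁ q₂ q₃ q₄ v ≠ c₀ (t⁻¹ • v) ∧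
      ee s t D K A P Q c₀ q₁ q₂ q₃ q₄ (s⁻¹ • v) ≠ c₀ v ∧
      ee s t D K A P Q c₀ q₁ q₂ q₃ q₄ (s⁻¹ • v) ≠ c₀ (t⁻¹ • v) := by
    by_cases l1 : v ∈ line s D
    · exact u2_D H hv l1
    by_cases l2 : v ∈ line s A
    · exact u2_A H l1 l2
    by_cases l3 : v ∈ line s P
    · exact u3_P H hv' l1 l2 l3
    by_cases l4 : v ∈ line s Q
    · exact u3_Q H hv' l1 l2 l3 l4
    exact u4_C H l1 l2 l3 l4
  obtain ⟨e1, e2, e3, e4, e5⟩ := h4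
  rw [h1, h2]
  exact ⟨e1, h3, e2.symm, e4.symm, e3.symm, e5.symm⟩

/-- Chunk F1, second part (S/M): **five colours for two generators of infinite order**.

**Proof.** `b5_data`, `e = ee ...`, `c = cc ...`, `b6_ee`, `b6_cc`; the conditions are `f1_vertex` at `x` and at `t • x`
(`t⁻¹ • t • x = x`). -/
theorem f1_pair [MeasurableSpace X] [StandardBorelSpace X] (hm : ∀ γ : Γ, Measurable (fun x : X => γ • x))
    (hfree : ∀ (γ : Γ) (x : X), γ • x = x → γ = 1) {s t : Γ} (hs : orderOf s = 0) (ht : orderOf t = 0)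
    (hts : t ≠ s) (hts' : t ≠ s⁻¹) : Pool.Agent.Lib.H84E.PairCol X s t := by
  obtain ⟨D, K, A, P, Q, c₀, q₁, q₂, q₃, q₄, H, mD, mK, mA, mP, mQ, mc, m1, m2, m3, m4⟩ :=
    b5_data hm hfree hs ht hts hts'
  refine ⟨ee s t D K A P Q c₀ q₁ q₂ q₃ q₄, cc s t D K P Q c₀ q₁,
    b6_ee hm s t mD mK mA mP mQ mc m1 m2 m3 m4, b6_cc hm s t mD mK mP mQ mc m1, ?_, ?_, ?_, ?_⟩
  · intro x
    exact (f1_vertex H x).1.symm
  · intro x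
    have h := (f1_vertex H (t • x)).2.1
    rw [inv_smul_smul] at h
    exact h.symm
  · intro x
    exact ⟨(f1_vertex H x).2.2.2.1, (f1_vertex H x).2.2.1⟩
  · intro x
    have h := (f1_vertex H (t • x)).2.2.2.2
    rw [inv_smul_smul] at h
    exact ⟨h.2, h.1⟩

end Pool.Agent.Lib.H84J
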